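import Mathlib
import Pool.Agent.H6.Weights2
import Pool.Agent.H6.CT2

/-!
# MP_103a5c_AH, section 6, file V1: a band limited function which on `(1/2)ℤ` lives on `{0, ±k/2, ±k}`

`hk k x = (1 - (-1)^k cos (π k x))^2` on `[-1,1]`, `0` outside; `rk k = cosT (hk k)`.
`rk k (j/2) = 3, -2(-1)^k, 1/2, 0` for `|j| = 0, k, 2k`, other integers; `|rk k u| ≤ C/(1+u²)²`.
-/

open MeasureTheory Set Filter Topology
open scoped Real Interval

namespace Pool.Agent.H84.AH

open Pool.Agent.H6

/-- clamp to `[-1,1]` -/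
noncomputable def cl (x : ℝ) : ℝ := max (-1) (min x 1)

lemma cl_of_abs_le {x : ℝ} (h : |x| ≤ 1) : cl x = x := by
  obtain ⟨h1, h2⟩ := abs_le.mp h
  unfold cl
  rw [min_eq_left h2, max_eq_right h1]

lemma cl_of_ge {x : ℝ} (h : 1 ≤ |x|) : cl x = 1 ∨ cl x = -1 := by
  unfold cl
  rcases le_abs.mp h with h | h
  · left; rw [min_eq_right h]; norm_num
  · right; rw [min_eq_left (by linarith), max_eq_left (by linarith)]

lemma cl_neg (x : ℝ) : cl (-x) = -cl x := by
  rcases le_total |x| 1 with h | h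
  · rw [cl_of_abs_le h, cl_of_abs_le (by rwa [abs_neg])]
  · unfold cl
    rcases le_abs.mp h with h | h
    · rw [min_eq_left (by linarith : -x ≤ 1), max_eq_left (by linarith), min_eq_right h, max_eq_right (by norm_num)]
    · rw [min_eq_right (by linarith), max_eq_right (by norm_num), min_eq_left (by linarith), max_eq_left (by linarith), neg_neg]

noncomputable def hk (k : ℕ) (x : ℝ) : ℝ := (1 - (-1) ^ k * Real.cos (π * k * cl x)) ^ 2

lemma continuous_hk (k : ℕ) : Continuous (hk k) := by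
  unfold hk cl
  fun_prop

lemma hk_neg (k : ℕ) (x : ℝ) : hk k (-x) = hk k x := by
  unfold hk
  rw [cl_neg, mul_neg, Real.cos_neg]

lemma cos_pi_nat (k : ℕ) : Real.cos (π * k) = (-1) ^ k := by
  rw [mul_comm, Real.cos_nat_mul_pi]

lemma hk_of_ge (k : ℕ) {x : ℝ} (h : 1 ≤ |x|) : hk k x = 0 := by
  unfold hk
  have e : Real.cos (π * k * cl x) = (-1) ^ k := by
    rcases cl_of_ge h with h | h
    · rw [h, mul_one, cos_pi_nat]
    · rw [h, mul_neg, mul_one, Real.cos_neg, cos_pi_nat]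
  rw [e, ← mul_pow]
  norm_num

lemma hk_of_le (k : ℕ) {x : ℝ} (h : |x| ≤ 1) :
    hk k x = 3 / 2 - 2 * (-1) ^ k * Real.cos (π * k * x) + 1 / 2 * Real.cos (π * (2 * k : ℕ) * x) := by
  unfold hk
  rw [cl_of_abs_le h]
  have e : Real.cos (π * (2 * k : ℕ) * x) = 2 * Real.cos (π * k * x) ^ 2 - 1 := by
    rw [← Real.cos_two_mul]; congr 1; push_cast; ring
  have s : ((-1 : ℝ) ^ k) ^ 2 = 1 := by rw [← pow_mul, mul_comm, pow_mul]; norm_num
  rw [e]
  linear_combination (Real.cos (π * k * x)) ^ 2 * s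

lemma hk_nonneg (k : ℕ) (x : ℝ) : 0 ≤ hk k x := sq_nonneg _

lemma hk_le (k : ℕ) (x : ℝ) : hk k x ≤ 4 := by
  unfold hk
  have h1 := Real.abs_cos_le_one (π * k * cl x)
  have h2 : |(-1 : ℝ) ^ k * Real.cos (π * k * cl x)| ≤ 1 := by
    rw [abs_mul, abs_pow, abs_neg, abs_one, one_pow, one_mul]; exact h1
  obtain ⟨h3, h4⟩ := abs_le.mp h2
  nlinarith

lemma hasCompactSupport_hk (k : ℕ) : HasCompactSupport (hk k) := by
  apply HasCompactSupport.intro (K := Icc (-1) 1) isCompact_Icc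
  intro x hx
  apply hk_of_ge
  by_contra h
  rw [not_le, abs_lt] at h
  exact hx ⟨h.1.le, h.2.le⟩

lemma integrable_hk (k : ℕ) : Integrable (hk k) :=
  (continuous_hk k).integrable_of_hasCompactSupport (hasCompactSupport_hk k)

/-- integral over the line of a function vanishing outside `[-1,1]` -/
lemma integral_eq_of_supp {f : ℝ → ℝ} (hf : ∀ x, 1 ≤ |x| → f x = 0) : ∫ x, f x = ∫ x in (-1)..1, f x := by
  rw [intervalIntegral.integral_of_le (by norm_num)]
  symm
  apply setIntegral_eq_integral_of_forall_compl_eq_zero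
  intro x hx
  apply hf
  by_contra h
  rw [not_le, abs_lt] at h
  exact hx ⟨h.1, h.2.le⟩

/-- the basic integral -/
lemma int_cos_cos (n : ℕ) (v : ℝ) (h : v ^ 2 ≠ (n : ℝ) ^ 2) :
    ∫ x in (-1)..1, Real.cos (π * n * x) * Real.cos (π * v * x)
      = (-1) ^ n * Real.sin (π * v) * (2 * v) / (π * (v ^ 2 - n ^ 2)) := by
  have hπ := Real.pi_pos
  have hd : v ^ 2 - (n : ℝ) ^ 2 ≠ 0 := sub_ne_zero.mpr h
  have hder : ∀ x ∈ uIcc (-1 : ℝ) 1, HasDerivAt (fun x : ℝ => (v * (Real.cos (π * n * x) * Real.sin (π * v * x))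
      - n * (Real.sin (π * n * x) * Real.cos (π * v * x))) / (π * (v ^ 2 - n ^ 2)))
      (Real.cos (π * n * x) * Real.cos (π * v * x)) x := by
    intro x _
    have a1 : HasDerivAt (fun x : ℝ => π * n * x) (π * n) x := by simpa using (hasDerivAt_id x).const_mul (π * n)
    have a2 : HasDerivAt (fun x : ℝ => π * v * x) (π * v) x := by simpa using (hasDerivAt_id x).const_mul (π * v)
    have h1 := (((a1.cos.mul a2.sin).const_mul v).sub ((a1.sin.mul a2.cos).const_mul (n : ℝ))).div_const (π * (v ^ 2 - n ^ 2))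
    refine h1.congr_deriv ?_
    field_simp
    ring
  rw [intervalIntegral.integral_eq_sub_of_hasDerivAt hder
    ((by fun_prop : Continuous fun x : ℝ => Real.cos (π * n * x) * Real.cos (π * v * x)).intervalIntegrable _ _)]
  have c1 : Real.cos (π * n * 1) = (-1) ^ n := by rw [mul_one, cos_pi_nat]
  have c2 : Real.cos (π * n * -1) = (-1) ^ n := by rw [mul_neg, mul_one, Real.cos_neg, cos_pi_nat]
  have c3 : Real.sin (π * n * 1) = 0 := by rw [mul_one, mul_comm]; exact Real.sin_nat_mul_pi n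
  have c4 : Real.sin (π * n * -1) = 0 := by
    rw [mul_neg, mul_one, Real.sin_neg, mul_comm, Real.sin_nat_mul_pi, neg_zero]
  have c5 : Real.sin (π * v * -1) = - Real.sin (π * v) := by rw [mul_neg, mul_one, Real.sin_neg]
  rw [c1, c2, c3, c4, c5, mul_one]
  ring

lemma int_cos_sq (n : ℕ) (hn : n ≠ 0) :
    ∫ x in (-1)..1, Real.cos (π * n * x) * Real.cos (π * n * x) = 1 := by
  have hπ := Real.pi_pos
  have h0 : (0 : ℝ) < n := by positivity
  have e : ∀ x : ℝ, Real.cos (π * n * x) * Real.cos (π * n * x) = 1 / 2 + 1 / 2 * (Real.cos (π * (2 * n : ℕ) * x) * Real.cos (π * 0 * x)) := by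
    intro x
    have e : Real.cos (π * (2 * n : ℕ) * x) = 2 * Real.cos (π * n * x) ^ 2 - 1 := by
      rw [← Real.cos_two_mul]; congr 1; push_cast; ring
    rw [e, mul_zero, zero_mul, Real.cos_zero]
    ring
  simp_rw [e]
  rw [intervalIntegral.integral_add (by simp) ((by fun_prop : Continuous fun x : ℝ =>
    1 / 2 * (Real.cos (π * (2 * n : ℕ) * x) * Real.cos (π * 0 * x))).intervalIntegrable _ _),
    intervalIntegral.integral_const_mul, int_cos_cos (2 * n) 0 (by
      intro h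
      have : (0 : ℝ) < ((2 * n : ℕ) : ℝ) ^ 2 := by push_cast; positivity
      rw [← h] at this
      norm_num at this)]
  simp
  norm_num

end Pool.Agent.H84.AH
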