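import Mathlib
import Pool.Agent.H84.AH.V1

/-!
# MP_103a5c_AH, section 6, file V2: the test functions `rk k`, their values on `(1/2)ℤ` and their decay
-/

open MeasureTheory Set Filter Topology
open scoped Real Interval

namespace Pool.Agent.H84.AH

open Pool.Agent.H6

noncomputable def rk (k : ℕ) (u : ℝ) : ℝ := cosT (hk k) u

lemma rk_eq (k : ℕ) (v : ℝ) : rk k (v / 2) = 3 / 2 * (∫ x in (-1)..1, Real.cos (π * (0 : ℕ) * x) * Real.cos (π * v * x))
    - 2 * (-1) ^ k * (∫ x in (-1)..1, Real.cos (π * k * x) * Real.cos (π * v * x))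
    + 1 / 2 * (∫ x in (-1)..1, Real.cos (π * (2 * k : ℕ) * x) * Real.cos (π * v * x)) := by
  unfold rk cosT
  rw [integral_eq_of_supp (fun x hx => by rw [hk_of_ge k hx, zero_mul])]
  have c : ∀ n : ℕ, IntervalIntegrable (fun x : ℝ => Real.cos (π * n * x) * Real.cos (π * v * x)) volume (-1) 1 :=
    fun n => (by fun_prop : Continuous fun x : ℝ => Real.cos (π * n * x) * Real.cos (π * v * x)).intervalIntegrable _ _
  rw [← intervalIntegral.integral_const_mul, ← intervalIntegral.integral_const_mul, ← intervalIntegral.integral_const_mul,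
    ← intervalIntegral.integral_sub ((c 0).const_mul _) ((c k).const_mul _),
    ← intervalIntegral.integral_add (((c 0).const_mul _).sub ((c k).const_mul _)) ((c (2 * k)).const_mul _)]
  apply intervalIntegral.integral_congr
  intro x hx
  rw [uIcc_of_le (by norm_num)] at hx
  have h1 : |x| ≤ 1 := abs_le.mpr ⟨hx.1, hx.2⟩
  simp only
  rw [hk_of_le k h1]
  have e : Real.cos (2 * π * x * (v / 2)) = Real.cos (π * v * x) := by congr 1; ring
  rw [e]
  simp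
  ring

lemma int_cos_nat (n j : ℕ) : ∫ x in (-1)..1, Real.cos (π * n * x) * Real.cos (π * j * x)
    = if n = j then (if n = 0 then 2 else 1) else 0 := by
  rcases eq_or_ne n j with h | h
  · subst h
    rw [if_pos rfl]
    rcases eq_or_ne n 0 with h0 | h0
    · subst h0
      simp
      norm_num
    · rw [if_neg h0, int_cos_sq n h0]
  · rw [if_neg h, int_cos_cos]
    · have : Real.sin (π * j) = 0 := by rw [mul_comm]; exact Real.sin_nat_mul_pi j
      rw [this]; simp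
    · intro h2
      apply h
      have h3 : (j : ℝ) = n := by
        have h4 := (sq_eq_sq_iff_abs_eq_abs _ _).mp h2
        rwa [abs_of_nonneg (by positivity), abs_of_nonneg (by positivity)] at h4
      exact_mod_cast h3.symm

/-- values on `(1/2)ℤ` -/
lemma rk_nat (k j : ℕ) : rk k ((j : ℝ) / 2) = 3 / 2 * (if 0 = j then 2 else 0)
    - 2 * (-1) ^ k * (if k = j then (if k = 0 then 2 else 1) else 0)
    + 1 / 2 * (if 2 * k = j then (if 2 * k = 0 then 2 else 1) else 0) := by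
  rw [rk_eq, int_cos_nat, int_cos_nat, int_cos_nat]
  simp

lemma rk_zero {k : ℕ} (hk : 0 < k) : rk k 0 = 3 := by
  have h := rk_nat k 0
  simp only [Nat.cast_zero, zero_div] at h
  rw [h]
  simp [hk.ne']

lemma rk_self {k : ℕ} (hk : 0 < k) : rk k ((k : ℝ) / 2) = -2 * (-1) ^ k := by
  rw [rk_nat, if_neg (by omega), if_pos rfl, if_neg (by omega), if_neg (by omega)]
  ring

lemma rk_double {k : ℕ} (hk : 0 < k) : rk k (((2 * k : ℕ) : ℝ) / 2) = 1 / 2 := by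
  rw [rk_nat, if_neg (by omega), if_neg (by omega), if_pos rfl, if_neg (by omega)]
  ring

lemma rk_other {k j : ℕ} (h0 : j ≠ 0) (h1 : j ≠ k) (h2 : j ≠ 2 * k) : rk k ((j : ℝ) / 2) = 0 := by
  rw [rk_nat, if_neg (by omega), if_neg (by omega), if_neg (by omega)]
  ring

lemma rk_neg (k : ℕ) (u : ℝ) : rk k (-u) = rk k u := cosT_neg _ u

lemma continuous_rk (k : ℕ) : Continuous (rk k) :=
  TestFn.continuous_cosT_of_integrable (integrable_hk k)

lemma alg_aux {S v K p : ℝ} (hp : p ≠ 0) (h0 : v ≠ 0) (d1 : v ^ 2 - K ^ 2 ≠ 0) (d2 : v ^ 2 - 4 * K ^ 2 ≠ 0) :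
    3 / 2 * (S * (2 * v) / (p * v ^ 2)) - 2 * (S * (2 * v) / (p * (v ^ 2 - K ^ 2)))
      + 1 / 2 * (S * (2 * v) / (p * (v ^ 2 - 4 * K ^ 2)))
      = 12 * K ^ 4 * S / (p * v * (v ^ 2 - K ^ 2) * (v ^ 2 - 4 * K ^ 2)) := by
  have e1 : 3 / 2 * (S * (2 * v) / (p * v ^ 2)) = 3 * S / (p * v) := by field_simp
  have e2 : 2 * (S * (2 * v) / (p * (v ^ 2 - K ^ 2))) = 4 * S * v / (p * (v ^ 2 - K ^ 2)) := by ring
  have e3 : 1 / 2 * (S * (2 * v) / (p * (v ^ 2 - 4 * K ^ 2))) = S * v / (p * (v ^ 2 - 4 * K ^ 2)) := by ring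
  rw [e1, e2, e3]
  generalize hA : v ^ 2 - K ^ 2 = A at d1 ⊢
  generalize hB : v ^ 2 - 4 * K ^ 2 = B at d2 ⊢
  rw [eq_div_iff (by positivity)]
  field_simp
  rw [← hA, ← hB]
  ring

/-- explicit formula -/
lemma rk_formula (k : ℕ) {v : ℝ} (h0 : v ≠ 0) (h1 : v ^ 2 ≠ (k : ℝ) ^ 2) (h2 : v ^ 2 ≠ ((2 * k : ℕ) : ℝ) ^ 2) :
    rk k (v / 2) = 12 * k ^ 4 * Real.sin (π * v) / (π * v * (v ^ 2 - k ^ 2) * (v ^ 2 - 4 * k ^ 2)) := by
  have hπ := Real.pi_pos
  have e0 : v ^ 2 ≠ ((0 : ℕ) : ℝ) ^ 2 := by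
    rw [Nat.cast_zero]; simpa using h0
  rw [rk_eq, int_cos_cos 0 v e0, int_cos_cos k v h1, int_cos_cos (2 * k) v h2]
  have s : ((-1 : ℝ) ^ k) ^ 2 = 1 := by rw [← pow_mul, mul_comm, pow_mul]; norm_num
  have s2 : (-1 : ℝ) ^ (2 * k) = 1 := by rw [pow_mul]; norm_num
  have d1 : v ^ 2 - (k : ℝ) ^ 2 ≠ 0 := sub_ne_zero.mpr h1
  have d2 : v ^ 2 - 4 * (k : ℝ) ^ 2 ≠ 0 := by
    apply sub_ne_zero.mpr
    intro h; apply h2; rw [h]; push_cast; ring
  have d3 : v ^ 2 - ((2 * k : ℕ) : ℝ) ^ 2 = v ^ 2 - 4 * (k : ℝ) ^ 2 := by push_cast; ring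
  rw [s2, d3, pow_zero, Nat.cast_zero]
  have e : 2 * (-1 : ℝ) ^ k * ((-1) ^ k * Real.sin (π * v) * (2 * v) / (π * (v ^ 2 - k ^ 2)))
      = 2 * (Real.sin (π * v) * (2 * v) / (π * (v ^ 2 - k ^ 2))) := by
    rw [show (-1 : ℝ) ^ k * Real.sin (π * v) * (2 * v) / (π * (v ^ 2 - k ^ 2))
      = (-1 : ℝ) ^ k * (Real.sin (π * v) * (2 * v) / (π * (v ^ 2 - k ^ 2))) by ring]
    rw [mul_assoc 2, ← mul_assoc ((-1 : ℝ) ^ k), ← sq, s, one_mul]
  rw [e]
  have e5 : v ^ 2 - (0 : ℝ) ^ 2 = v ^ 2 := by ring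
  rw [e5]
  simp only [one_mul]
  exact alg_aux hπ.ne' h0 d1 d2

lemma rk_bdd (k : ℕ) (u : ℝ) : |rk k u| ≤ 8 := by
  unfold rk cosT
  rw [integral_eq_of_supp (fun x hx => by rw [hk_of_ge k hx, zero_mul])]
  have h := intervalIntegral.norm_integral_le_of_norm_le_const (a := (-1 : ℝ)) (b := 1) (C := 4)
    (f := fun x => hk k x * Real.cos (2 * π * x * u)) (by
      intro x _
      rw [Real.norm_eq_abs, abs_mul, abs_of_nonneg (hk_nonneg k x)]
      have h1 := Real.abs_cos_le_one (2 * π * x * u)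
      have h2 := hk_le k x
      have h3 := hk_nonneg k x
      nlinarith [abs_nonneg (Real.cos (2 * π * x * u))])
  rw [Real.norm_eq_abs] at h
  refine h.trans ?_
  norm_num

lemma rk_decay (k : ℕ) : ∃ C : ℝ, 0 ≤ C ∧ ∀ u, |rk k u| ≤ C / (1 + u ^ 2) ^ 2 := by
  have hπ := Real.pi_gt_three
  refine ⟨8 * (1 + 4 * (k : ℝ) ^ 2 + 1) ^ 2 + 12 * k ^ 4 * 4, by positivity, fun u => ?_⟩
  rw [le_div_iff₀ (by positivity)]
  rcases le_or_gt (u ^ 2) (4 * (k : ℝ) ^ 2 + 1) with h | h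
  · calc |rk k u| * (1 + u ^ 2) ^ 2 ≤ 8 * (1 + 4 * (k : ℝ) ^ 2 + 1) ^ 2 := by
          apply mul_le_mul (rk_bdd k u) _ (by positivity) (by norm_num)
          apply pow_le_pow_left₀ (by positivity)
          linarith
      _ ≤ _ := by
          have : (0 : ℝ) ≤ 12 * k ^ 4 * 4 := by positivity
          linarith
  · have hk0 : (0 : ℝ) ≤ (k : ℝ) ^ 2 := sq_nonneg _
    have hu1 : 1 < u ^ 2 := by linarith
    have hv : (2 * u) ^ 2 = 4 * u ^ 2 := by ring
    have h0 : (2 * u) ≠ 0 := by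
      intro h0
      have : u = 0 := by linarith
      rw [this] at hu1; norm_num at hu1
    have h1 : (2 * u) ^ 2 ≠ (k : ℝ) ^ 2 := by rw [hv]; intro h; nlinarith
    have h2 : (2 * u) ^ 2 ≠ ((2 * k : ℕ) : ℝ) ^ 2 := by
      rw [hv]; push_cast; intro h; nlinarith
    have hf := rk_formula k h0 h1 h2
    rw [show 2 * u / 2 = u by ring] at hf
    rw [hf, abs_div, abs_mul, abs_of_nonneg (by positivity : (0 : ℝ) ≤ 12 * (k : ℝ) ^ 4)]
    have p1 : 3 * u ^ 2 ≤ (2 * u) ^ 2 - (k : ℝ) ^ 2 := by rw [hv]; nlinarith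
    have p2 : 3 * u ^ 2 ≤ (2 * u) ^ 2 - 4 * (k : ℝ) ^ 2 := by rw [hv]; nlinarith
    have hua : 1 ≤ |u| := by
      rw [← sq_abs] at hu1
      nlinarith [abs_nonneg u]
    have den : 3 * 2 * 1 * (3 * u ^ 2) * (3 * u ^ 2) ≤ |π * (2 * u) * ((2 * u) ^ 2 - (k : ℝ) ^ 2) * ((2 * u) ^ 2 - 4 * (k : ℝ) ^ 2)| := by
      rw [abs_mul, abs_mul, abs_mul, abs_of_pos Real.pi_pos, abs_mul, abs_of_pos (by norm_num : (0 : ℝ) < 2),
        abs_of_nonneg (le_trans (by positivity) p1), abs_of_nonneg (le_trans (by positivity) p2)]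
      have q1 : 3 * 2 * 1 ≤ π * (2 * |u|) := by nlinarith
      apply mul_le_mul _ p2 (by positivity) (mul_nonneg (by positivity) (le_trans (by positivity) p1))
      apply mul_le_mul q1 p1 (by positivity) (by positivity)
    have hu4 : (1 + u ^ 2) ^ 2 ≤ 4 * (u ^ 2) ^ 2 := by nlinarith
    have hsin := Real.abs_sin_le_one (π * (2 * u))
    have dpos : 0 < 3 * 2 * 1 * (3 * u ^ 2) * (3 * u ^ 2) := by positivity
    calc 12 * (k : ℝ) ^ 4 * |Real.sin (π * (2 * u))| / |π * (2 * u) * ((2 * u) ^ 2 - (k : ℝ) ^ 2) * ((2 * u) ^ 2 - 4 * (k : ℝ) ^ 2)|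
          * (1 + u ^ 2) ^ 2
        ≤ 12 * (k : ℝ) ^ 4 * 1 / (3 * 2 * 1 * (3 * u ^ 2) * (3 * u ^ 2)) * (4 * (u ^ 2) ^ 2) := by
          apply mul_le_mul _ hu4 (by positivity) (by positivity)
          apply div_le_div₀ (by positivity) _ dpos den
          apply mul_le_mul_of_nonneg_left hsin (by positivity)
      _ = 12 * (k : ℝ) ^ 4 * 4 / 54 := by
          have hu0 : u ≠ 0 := by
            intro h0; rw [h0] at hu1; norm_num at hu1
          field_simp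
          ring
      _ ≤ 12 * (k : ℝ) ^ 4 * 4 := by
          have : (0 : ℝ) ≤ 12 * (k : ℝ) ^ 4 * 4 := by positivity
          linarith
      _ ≤ _ := by
          have : (0 : ℝ) ≤ 8 * (1 + 4 * (k : ℝ) ^ 2 + 1) ^ 2 := by positivity
          linarith

end Pool.Agent.H84.AH
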