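import Mathlib
import Pool.Agent.H6.Bound
import Pool.Agent.H6.Taub4
import Pool.Agent.H84.AH.V2

/-!
# MP_103a5c_AH, section 6, file V3: the pair functional `PP`, Montgomery's theorem for the dilated test functions,
a tail bound
-/

open MeasureTheory Set Filter Topology
open scoped Real Interval

namespace Pool.Agent.H84.AH

open Pool.Agent.H6 Pool.Agent

section
variable {ι : Type*} {γ w : ι → ℝ} {F : ℝ → Finset ι} {CR : ℝ}

/-- `(1/norm T) ∑ w_i w_j f(x_ij)`, `x_ij = (γ_i - γ_j) log T / 2π` -/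
noncomputable def PP (γ w : ι → ℝ) (F : ℝ → Finset ι) (T : ℝ) (f : ℝ → ℝ) : ℝ :=
  (1 / PC.norm T) * ∑ i ∈ F T, ∑ j ∈ F T, w i * w j * f ((γ i - γ j) * Real.log T / (2 * π))

lemma PP_mono (hw : ∀ i, 0 ≤ w i) {T : ℝ} (hT : 1 < T) {f g : ℝ → ℝ} (h : ∀ x, f x ≤ g x) :
    PP γ w F T f ≤ PP γ w F T g := by
  have hn := norm_pos hT
  unfold PP
  apply mul_le_mul_of_nonneg_left _ (by positivity)
  apply Finset.sum_le_sum
  intro i _
  apply Finset.sum_le_sum
  intro j _
  exact mul_le_mul_of_nonneg_left (h _) (mul_nonneg (hw i) (hw j))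

lemma PP_add (T : ℝ) (f g : ℝ → ℝ) : PP γ w F T (fun x => f x + g x) = PP γ w F T f + PP γ w F T g := by
  unfold PP
  rw [← mul_add, ← Finset.sum_add_distrib]
  congr 1
  apply Finset.sum_congr rfl
  intro i _
  rw [← Finset.sum_add_distrib]
  apply Finset.sum_congr rfl
  intro j _
  ring

lemma PP_const_mul (T c : ℝ) (f : ℝ → ℝ) : PP γ w F T (fun x => c * f x) = c * PP γ w F T f := by
  unfold PP
  rw [mul_left_comm]
  congr 1
  rw [Finset.mul_sum]
  apply Finset.sum_congr rfl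
  intro i _
  rw [Finset.mul_sum]
  apply Finset.sum_congr rfl
  intro j _
  ring

lemma PP_sub (T : ℝ) (f g : ℝ → ℝ) : PP γ w F T (fun x => f x - g x) = PP γ w F T f - PP γ w F T g := by
  have h := PP_add (γ := γ) (w := w) (F := F) T f (fun x => (-1) * g x)
  rw [PP_const_mul] at h
  have e : (fun x => f x - g x) = fun x => f x + (-1) * g x := by ext x; ring
  rw [e, h]; ring

lemma PP_zero (T : ℝ) : PP γ w F T (fun _ => 0) = 0 := by
  unfold PP; simp

lemma PP_sum {κ : Type*} (T : ℝ) (s : Finset κ) (f : κ → ℝ → ℝ) :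
    PP γ w F T (fun x => ∑ k ∈ s, f k x) = ∑ k ∈ s, PP γ w F T (f k) := by
  classical
  induction s using Finset.induction_on with
  | empty => simp [PP_zero]
  | insert a s ha ih =>
    rw [Finset.sum_insert ha, ← ih, ← PP_add]
    congr 1
    ext x
    rw [Finset.sum_insert ha]

lemma PP_nonneg (hw : ∀ i, 0 ≤ w i) {T : ℝ} (hT : 1 < T) {f : ℝ → ℝ} (h : ∀ x, 0 ≤ f x) : 0 ≤ PP γ w F T f := by
  rw [← PP_zero (γ := γ) (w := w) (F := F) T]
  exact PP_mono hw hT h

lemma PP_symm (T : ℝ) (f : ℝ → ℝ) : PP γ w F T (fun x => f (-x)) = PP γ w F T f := by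
  unfold PP
  congr 1
  rw [Finset.sum_comm]
  apply Finset.sum_congr rfl
  intro i _
  apply Finset.sum_congr rfl
  intro j _
  have e : -((γ j - γ i) * Real.log T / (2 * π)) = (γ i - γ j) * Real.log T / (2 * π) := by ring
  simp only
  rw [e]; ring

lemma MM_eq_PP (T β : ℝ) : MM γ w F T β = PP γ w F T (fun x => if |x| ≤ β then 1 else 0) := by
  unfold MM PP
  congr 1
  apply Finset.sum_congr rfl
  intro i _
  apply Finset.sum_congr rfl
  intro j _
  simp only
  split_ifs <;> ring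

lemma abs_PP_le (hw : ∀ i, 0 ≤ w i) {T : ℝ} (hT : 1 < T) {f g : ℝ → ℝ} (h : ∀ x, |f x| ≤ g x) :
    |PP γ w F T f| ≤ PP γ w F T g := by
  rw [abs_le]
  constructor
  · have h1 := PP_mono (γ := γ) (F := F) hw hT (f := fun x => (-1) * g x) (g := f)
      (fun x => by have := (abs_le.mp (h x)).1; linarith)
    rw [PP_const_mul] at h1
    linarith
  · exact PP_mono hw hT (fun x => (abs_le.mp (h x)).2)

variable [Countable ι]

/-- the dilated test functions -/
noncomputable def ph (k : ℕ) (θ u : ℝ) : ℝ := θ * rk k (θ * u)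

omit [Countable ι] in
lemma cosT_hk_dilate (k : ℕ) {θ : ℝ} (hθ : 0 < θ) (u : ℝ) : cosT (fun x => hk k (x / θ)) u = ph k θ u := by
  rw [cosT_dilate (hk k) hθ]
  rfl

omit [Countable ι] in
lemma hk_dil_supp (k : ℕ) {θ : ℝ} (hθ : 0 < θ) {x : ℝ} (hx : θ ≤ |x|) : hk k (x / θ) = 0 := by
  apply hk_of_ge
  rw [abs_div, abs_of_pos hθ, le_div_iff₀ hθ, one_mul]
  exact hx

omit [Countable ι] in
lemma continuous_ph (k : ℕ) (θ : ℝ) : Continuous (ph k θ) := by
  unfold ph
  exact continuous_const.mul ((continuous_rk k).comp (continuous_const.mul continuous_id))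

omit [Countable ι] in
lemma ph_neg (k : ℕ) (θ u : ℝ) : ph k θ (-u) = ph k θ u := by
  unfold ph; rw [mul_neg, rk_neg]

omit [Countable ι] in
lemma ph_decay (k : ℕ) : ∃ C : ℝ, 0 ≤ C ∧ ∀ θ : ℝ, 1 / 2 ≤ θ → θ ≤ 1 → ∀ u, |ph k θ u| ≤ C / (1 + u ^ 2) ^ 2 := by
  obtain ⟨C, hC0, hC⟩ := rk_decay k
  refine ⟨16 * C, by positivity, fun θ h1 h2 u => ?_⟩
  unfold ph
  have h3 := hC (θ * u)
  rw [abs_mul, abs_of_nonneg (by linarith)]
  rw [le_div_iff₀ (by positivity)] at h3 ⊢
  have h4 : (1 + u ^ 2) ^ 2 ≤ 16 * (1 + (θ * u) ^ 2) ^ 2 := by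
    have : 1 + u ^ 2 ≤ 4 * (1 + (θ * u) ^ 2) := by
      have h5 : (1 / 2 : ℝ) ^ 2 * u ^ 2 ≤ θ ^ 2 * u ^ 2 :=
        mul_le_mul_of_nonneg_right (pow_le_pow_left₀ (by norm_num) h1 2) (sq_nonneg u)
      have h6 : (θ * u) ^ 2 = θ ^ 2 * u ^ 2 := by ring
      rw [h6]; linarith
    calc (1 + u ^ 2) ^ 2 ≤ (4 * (1 + (θ * u) ^ 2)) ^ 2 := pow_le_pow_left₀ (by positivity) this 2
      _ = _ := by ring
  calc θ * |rk k (θ * u)| * (1 + u ^ 2) ^ 2 ≤ 1 * |rk k (θ * u)| * (16 * (1 + (θ * u) ^ 2) ^ 2) := by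
        apply mul_le_mul _ h4 (by positivity) (by positivity)
        exact mul_le_mul_of_nonneg_right h2 (abs_nonneg _)
    _ = 16 * (|rk k (θ * u)| * (1 + (θ * u) ^ 2) ^ 2) := by ring
    _ ≤ 16 * C := by linarith

omit [Countable ι] in
lemma cosT_ph (k : ℕ) {θ : ℝ} (h1 : 1 / 2 ≤ θ) (h2 : θ ≤ 1) (ξ : ℝ) : cosT (ph k θ) ξ = hk k (ξ / θ) := by
  have h0 : 0 < θ := by linarith
  have e : ph k θ = cosT (fun x => hk k (x / θ)) := by
    ext u; rw [cosT_hk_dilate k h0]
  rw [e]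
  have hc : Continuous fun x => hk k (x / θ) := (continuous_hk k).comp (continuous_id.div_const θ)
  have hi : Integrable fun x => hk k (x / θ) := by
    apply hc.integrable_of_hasCompactSupport
    apply HasCompactSupport.intro (K := Icc (-θ) θ) isCompact_Icc
    intro x hx
    apply hk_dil_supp k h0
    by_contra h
    rw [not_le, abs_lt] at h
    exact hx ⟨h.1.le, h.2.le⟩
  apply cosT_cosT hc hi (fun u => by rw [neg_div, hk_neg])
  rw [← e]
  obtain ⟨C, hC0, hC⟩ := ph_decay k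
  apply Integrable.mono' (integrable_inv_one_add_sq'.const_mul C) (continuous_ph k θ).aestronglyMeasurable
  apply ae_of_all
  intro u
  rw [Real.norm_eq_abs]
  refine (hC θ h1 h2 u).trans ?_
  rw [← div_eq_mul_inv]
  apply div_le_div_of_nonneg_left hC0 (by positivity)
  nlinarith [sq_nonneg u]

omit [Countable ι] in
lemma testFn_ph (k : ℕ) {θ : ℝ} (h1 : 1 / 2 ≤ θ) (h2 : θ ≤ 1) : TestFn θ (ph k θ) := by
  obtain ⟨C, hC0, hC⟩ := ph_decay k
  refine ⟨continuous_ph k θ, ph_neg k θ, ⟨C, hC0, hC θ h1 h2⟩, fun ξ hξ => ?_⟩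
  rw [cosT_ph k h1 h2]
  exact hk_dil_supp k (by linarith) hξ

omit [Countable ι] in
/-- `∫ x cos(π n x)` on `[0,1]` -/
lemma int_x_cos (n : ℕ) (hn : n ≠ 0) : ∫ x in (0 : ℝ)..1, x * Real.cos (π * n * x) = ((-1) ^ n - 1) / (π * n) ^ 2 := by
  have hπ := Real.pi_pos
  have h0 : (0 : ℝ) < n := by positivity
  have hder : ∀ x ∈ uIcc (0 : ℝ) 1, HasDerivAt (fun x : ℝ => (x * Real.sin (π * n * x)) / (π * n)
      + Real.cos (π * n * x) / (π * n) ^ 2) (x * Real.cos (π * n * x)) x := by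
    intro x _
    have a1 : HasDerivAt (fun x : ℝ => π * n * x) (π * n) x := by simpa using (hasDerivAt_id x).const_mul (π * n)
    have h1 := (((hasDerivAt_id x).mul a1.sin).div_const (π * n)).add ((a1.cos).div_const ((π * n) ^ 2))
    refine h1.congr_deriv ?_
    simp only [id]
    field_simp
    ring
  rw [intervalIntegral.integral_eq_sub_of_hasDerivAt hder
    ((by fun_prop : Continuous fun x : ℝ => x * Real.cos (π * n * x)).intervalIntegrable _ _)]
  have c3 : Real.sin (π * n * 1) = 0 := by rw [mul_one, mul_comm]; exact Real.sin_nat_mul_pi n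
  have c4 : Real.cos (π * n * 0) = 1 := by simp
  rw [c3, c4, mul_one, cos_pi_nat]
  ring

omit [Countable ι] in
lemma integral_abs_hk {k : ℕ} (hk0 : 0 < k) :
    ∫ x, |x| * hk k x = 3 / 2 - 4 * (1 - (-1) ^ k) / (π * k) ^ 2 := by
  have hπ := Real.pi_pos
  have s : ((-1 : ℝ) ^ k) ^ 2 = 1 := by rw [← pow_mul, mul_comm, pow_mul]; norm_num
  have s2 : (-1 : ℝ) ^ (2 * k) = 1 := by rw [pow_mul]; norm_num
  rw [integral_even_eq (f := fun x => |x| * hk k x) (fun y => by rw [abs_neg, hk_neg])]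
  have e : ∫ x in Ioi (0 : ℝ), |x| * hk k x = ∫ x in (0 : ℝ)..1, |x| * hk k x := by
    rw [intervalIntegral.integral_of_le (by norm_num)]
    apply setIntegral_eq_of_subset_of_forall_diff_eq_zero measurableSet_Ioi Ioc_subset_Ioi_self
    intro x hx
    have h1 : 0 < x := hx.1
    have h2 : ¬ (0 < x ∧ x ≤ 1) := hx.2
    have h3 : 1 < x := by
      by_contra h
      exact h2 ⟨h1, not_lt.mp h⟩
    rw [hk_of_ge k (by rw [abs_of_pos h1]; exact h3.le), mul_zero]
  rw [e]
  have e2 : ∫ x in (0 : ℝ)..1, |x| * hk k x = ∫ x in (0 : ℝ)..1, (3 / 2 * x - 2 * (-1) ^ k * (x * Real.cos (π * k * x))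
      + 1 / 2 * (x * Real.cos (π * (2 * k : ℕ) * x))) := by
    apply intervalIntegral.integral_congr
    intro x hx
    rw [uIcc_of_le (by norm_num)] at hx
    simp only
    rw [abs_of_nonneg hx.1, hk_of_le k (by rw [abs_of_nonneg hx.1]; exact hx.2)]
    ring
  have c : ∀ n : ℕ, IntervalIntegrable (fun x : ℝ => x * Real.cos (π * n * x)) volume 0 1 :=
    fun n => (by fun_prop : Continuous fun x : ℝ => x * Real.cos (π * n * x)).intervalIntegrable _ _
  have c0 : IntervalIntegrable (fun x : ℝ => 3 / 2 * x) volume 0 1 :=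
    (by fun_prop : Continuous fun x : ℝ => 3 / 2 * x).intervalIntegrable _ _
  rw [e2, intervalIntegral.integral_add (c0.sub ((c k).const_mul _)) ((c (2 * k)).const_mul _),
    intervalIntegral.integral_sub c0 ((c k).const_mul _), intervalIntegral.integral_const_mul,
    intervalIntegral.integral_const_mul, intervalIntegral.integral_const_mul, int_x_cos k (by omega),
    int_x_cos (2 * k) (by omega), integral_id, s2]
  linear_combination (-4 / (π * k) ^ 2) * s

end

end Pool.Agent.H84.AH
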