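import Mathlib
import Pool.Agent.H84.AH.V3

/-!
# MP_103a5c_AH, section 6, file V4: if the differences live near `(1/2)ℤ`, then `PP φ ≈ ∑ W_j φ(j/2)`
-/

open MeasureTheory Set Filter Topology
open scoped Real Interval

namespace Pool.Agent.H84.AH

open Pool.Agent.H6 Pool.Agent

/-- indicator of `x ∈ [-R, R]`, at distance `≥ ε` from `(1/2)ℤ` -/
noncomputable def off (ε R x : ℝ) : ℝ :=
  open Classical in if |x| ≤ R ∧ ∀ k : ℤ, ε ≤ |x - k / 2| then 1 else 0

/-- indicator of `| |x| - j/2 | < 1/4` -/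
noncomputable def near (j : ℕ) (x : ℝ) : ℝ := if |(|x| - (j : ℝ) / 2)| < 1 / 4 then 1 else 0

lemma off_nonneg (ε R x : ℝ) : 0 ≤ off ε R x := by unfold off; split_ifs <;> norm_num
lemma near_nonneg (j : ℕ) (x : ℝ) : 0 ≤ near j x := by unfold near; split_ifs <;> norm_num
lemma near_le_one (j : ℕ) (x : ℝ) : near j x ≤ 1 := by unfold near; split_ifs <;> norm_num

lemma near_unique {i j : ℕ} {x : ℝ} (hi : |(|x| - (i : ℝ) / 2)| < 1 / 4) (hj : |(|x| - (j : ℝ) / 2)| < 1 / 4) : i = j := by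
  have h1 := abs_lt.mp hi
  have h2 := abs_lt.mp hj
  have h3 : (i : ℝ) - j < 1 := by linarith [h1.1, h2.2]
  have h4 : (j : ℝ) - i < 1 := by linarith [h1.2, h2.1]
  have h5 : i < j + 1 := by exact_mod_cast (by linarith : (i : ℝ) < j + 1)
  have h6 : j < i + 1 := by exact_mod_cast (by linarith : (j : ℝ) < i + 1)
  omega

lemma sum_near_of {J j0 : ℕ} (hj0 : j0 ≤ J) {x : ℝ} (h : |(|x| - (j0 : ℝ) / 2)| < 1 / 4) (φ : ℝ → ℝ) :
    ∑ j ∈ Finset.range (J + 1), near j x * φ ((j : ℝ) / 2) = φ ((j0 : ℝ) / 2) := by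
  rw [Finset.sum_eq_single j0]
  · unfold near
    rw [if_pos h, one_mul]
  · intro j _ hj
    unfold near
    rw [if_neg, zero_mul]
    intro h2
    exact hj (near_unique h2 h)
  · intro h2
    exact absurd (Finset.mem_range.mpr (by omega)) h2

lemma sum_near_none {J : ℕ} {x : ℝ} (h : ∀ j : ℕ, j ≤ J → ¬ |(|x| - (j : ℝ) / 2)| < 1 / 4) (φ : ℝ → ℝ) :
    ∑ j ∈ Finset.range (J + 1), near j x * φ ((j : ℝ) / 2) = 0 := by
  apply Finset.sum_eq_zero
  intro j hj
  unfold near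
  rw [if_neg (h j (by have := Finset.mem_range.mp hj; omega)), zero_mul]

/-- the pointwise inequality -/
lemma pointwise {φ : ℝ → ℝ} (heven : ∀ x, φ (-x) = φ x) {C M ω ε : ℝ} {J : ℕ} (hC0 : 0 ≤ C) (hM : ∀ x, |φ x| ≤ M)
    (hC : ∀ x, |φ x| ≤ C / (1 + x ^ 2) ^ 2) (hω0 : 0 ≤ ω) (hε1 : ε < 1 / 4)
    (hω : ∀ x y : ℝ, 0 ≤ x → x ≤ (J : ℝ) / 2 + 1 → 0 ≤ y → y ≤ (J : ℝ) / 2 + 1 → |x - y| < ε → |φ x - φ y| ≤ ω) (x : ℝ) :
    |φ x - ∑ j ∈ Finset.range (J + 1), near j x * φ ((j : ℝ) / 2)|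
      ≤ ω * (if |x| ≤ (J : ℝ) / 2 + 1 / 4 then 1 else 0) + 2 * M * off ε ((J : ℝ) / 2 + 1 / 4) x
        + C / (1 + ((J : ℝ) / 2) ^ 2) * (1 / (1 + x ^ 2)) := by
  have hM0 : 0 ≤ M := (abs_nonneg _).trans (hM 0)
  have hJ : (0 : ℝ) ≤ (J : ℝ) := Nat.cast_nonneg _
  have t3 : 0 ≤ C / (1 + ((J : ℝ) / 2) ^ 2) * (1 / (1 + x ^ 2)) := by positivity
  have hφabs : φ |x| = φ x := by
    rcases abs_choice x with h | h <;> rw [h]
    rw [heven]
  rcases le_or_gt |x| ((J : ℝ) / 2 + 1 / 4) with hx | hx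
  · rw [if_pos hx, mul_one]
    by_cases hoff : ∀ k : ℤ, ε ≤ |x - k / 2|
    · have e : off ε ((J : ℝ) / 2 + 1 / 4) x = 1 := by unfold off; rw [if_pos ⟨hx, hoff⟩]
      rw [e, mul_one]
      have h1 : |∑ j ∈ Finset.range (J + 1), near j x * φ ((j : ℝ) / 2)| ≤ M := by
        by_cases h : ∃ j : ℕ, j ≤ J ∧ |(|x| - (j : ℝ) / 2)| < 1 / 4
        · obtain ⟨j, hj, hj2⟩ := h
          rw [sum_near_of hj hj2]
          exact hM _
        · push Not at h
          rw [sum_near_none (fun j hj h2 => absurd h2 (not_lt.mpr (h j hj))), abs_zero]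
          exact hM0
      calc |φ x - ∑ j ∈ Finset.range (J + 1), near j x * φ ((j : ℝ) / 2)|
          ≤ |φ x| + |∑ j ∈ Finset.range (J + 1), near j x * φ ((j : ℝ) / 2)| := abs_sub _ _
        _ ≤ M + M := add_le_add (hM x) h1
        _ ≤ _ := by linarith
    · push Not at hoff
      obtain ⟨k, hk⟩ := hoff
      have h1 : |(|x| - (k.natAbs : ℝ) / 2)| < ε := by
        have e : (k.natAbs : ℝ) / 2 = |(k : ℝ) / 2| := by
          rw [abs_div, abs_of_pos (by norm_num : (0 : ℝ) < 2), Nat.cast_natAbs, Int.cast_abs]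
        rw [e]
        exact lt_of_le_of_lt (abs_abs_sub_abs_le _ _) hk
      have h2 : k.natAbs ≤ J := by
        have := (abs_lt.mp h1).1
        have h3 : (k.natAbs : ℝ) < J + 1 := by linarith
        have h4 : k.natAbs < J + 1 := by exact_mod_cast h3
        omega
      have h5 : (k.natAbs : ℝ) ≤ J := by exact_mod_cast h2
      rw [sum_near_of h2 (h1.trans hε1), ← hφabs]
      have h3 := hω |x| ((k.natAbs : ℝ) / 2) (abs_nonneg _) (by linarith) (by positivity) (by linarith) h1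
      have t2 : 0 ≤ 2 * M * off ε ((J : ℝ) / 2 + 1 / 4) x := mul_nonneg (by positivity) (off_nonneg _ _ _)
      linarith
  · have h1 : ∀ j : ℕ, j ≤ J → ¬ |(|x| - (j : ℝ) / 2)| < 1 / 4 := by
      intro j hj h
      have h2 := (abs_lt.mp h).2
      have h3 : (j : ℝ) ≤ J := by exact_mod_cast hj
      linarith
    rw [sum_near_none h1, sub_zero, if_neg (not_le.mpr hx), mul_zero, zero_add]
    have t2 : 0 ≤ 2 * M * off ε ((J : ℝ) / 2 + 1 / 4) x := mul_nonneg (by positivity) (off_nonneg _ _ _)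
    have h2 : C / (1 + x ^ 2) ^ 2 ≤ C / (1 + ((J : ℝ) / 2) ^ 2) * (1 / (1 + x ^ 2)) := by
      rw [div_mul_div_comm, mul_one]
      apply div_le_div_of_nonneg_left hC0 (by positivity)
      rw [sq (1 + x ^ 2)]
      apply mul_le_mul_of_nonneg_right _ (by positivity)
      have : ((J : ℝ) / 2) ^ 2 ≤ x ^ 2 := by
        rw [← sq_abs x]
        apply pow_le_pow_left₀ (by positivity)
        linarith
      linarith
    have h3 := hC x
    linarith

lemma tail_inv (u : ℝ) : tail (fun v => 2 * v / (1 + v ^ 2) ^ 2) u = 1 / (1 + u ^ 2) := by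
  unfold tail
  have h := integral_Ioi_of_hasDerivAt_of_tendsto' (a := |u|) (f := fun v : ℝ => -(1 / (1 + v ^ 2)))
    (f' := fun v => 2 * v / (1 + v ^ 2) ^ 2) (m := 0) (fun v _ => by
      have hp : (1 + v ^ 2) ≠ 0 := by positivity
      have h1 : HasDerivAt (fun v : ℝ => 1 + v ^ 2) (2 * v) v := by
        simpa using (hasDerivAt_pow 2 v).const_add 1
      have h2 := (h1.inv hp).neg
      simp only [one_div]
      refine h2.congr_deriv ?_
      field_simp) ?_ ?_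
  · rw [h]; simp [sq_abs]
  · apply Integrable.integrableOn
    apply Integrable.mono' integrable_inv_one_add_sq
    · exact (Continuous.div (by fun_prop) (by fun_prop) (fun v => by positivity)).aestronglyMeasurable
    · apply ae_of_all
      intro v
      rw [Real.norm_eq_abs, abs_div, abs_of_pos (by positivity : 0 < (1 + v ^ 2) ^ 2), div_le_iff₀ (by positivity)]
      have e : (1 + v ^ 2)⁻¹ * (1 + v ^ 2) ^ 2 = 1 + v ^ 2 := by
        have hp : (1 + v ^ 2) ≠ 0 := by positivity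
        field_simp
      rw [e, abs_mul, abs_of_pos (by norm_num : (0 : ℝ) < 2)]
      nlinarith [sq_nonneg (|v| - 1), sq_abs v]
  · have h1 : Tendsto (fun v : ℝ => 1 + v ^ 2) atTop atTop :=
      tendsto_atTop_add_const_left _ _ (tendsto_pow_atTop (by norm_num))
    have h2 := h1.inv_tendsto_atTop.neg
    rw [neg_zero] at h2
    apply h2.congr
    intro v
    simp

section
variable {ι : Type*} {γ w : ι → ℝ} {F : ℝ → Finset ι} {CR : ℝ} [Countable ι]

lemma PP_inv_bound (I : Inputs γ w F CR) : ∃ T0 K : ℝ, 1 < T0 ∧ 0 < K ∧ ∀ T, T0 ≤ T →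
    PP γ w F T (fun x => 1 / (1 + x ^ 2)) ≤ K := by
  obtain ⟨T0, C, hT0, hC0, hC⟩ := MM_bound I
  have hint : Integrable (fun v : ℝ => 2 * v / (1 + v ^ 2) ^ 2) := by
    apply Integrable.mono' integrable_inv_one_add_sq
    · exact (Continuous.div (by fun_prop) (by fun_prop) (fun v => by positivity)).aestronglyMeasurable
    · apply ae_of_all
      intro v
      rw [Real.norm_eq_abs, abs_div, abs_of_pos (by positivity : 0 < (1 + v ^ 2) ^ 2), div_le_iff₀ (by positivity)]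
      have e : (1 + v ^ 2)⁻¹ * (1 + v ^ 2) ^ 2 = 1 + v ^ 2 := by
        have hp : (1 + v ^ 2) ≠ 0 := by positivity
        field_simp
      rw [e, abs_mul, abs_of_pos (by norm_num : (0 : ℝ) < 2)]
      nlinarith [sq_nonneg (|v| - 1), sq_abs v]
  refine ⟨T0, 3 * C * (∫ v : ℝ, (1 + v ^ 2)⁻¹) + 1, hT0, ?_, fun T hT => ?_⟩
  · have : 0 ≤ ∫ v : ℝ, (1 + v ^ 2)⁻¹ := integral_nonneg fun v => by positivity
    positivity
  · have hT1 : 1 < T := lt_of_lt_of_le hT0 hT
    have h1 := sum_tail_eq (γ := γ) (w := w) (F := F) hint T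
    simp_rw [tail_inv] at h1
    have h2 : PP γ w F T (fun x => 1 / (1 + x ^ 2)) = ∫ β in Ioi 0, 2 * β / (1 + β ^ 2) ^ 2 * MM γ w F T β := h1
    rw [h2]
    have hbd : ∀ β : ℝ, 0 < β → 2 * β / (1 + β ^ 2) ^ 2 * MM γ w F T β ≤ 3 * C * (1 + β ^ 2)⁻¹ := by
      intro β hβ
      have h3 := hC T hT β hβ.le
      have hp : (1 + β ^ 2) ≠ 0 := by positivity
      calc 2 * β / (1 + β ^ 2) ^ 2 * MM γ w F T β ≤ 2 * β / (1 + β ^ 2) ^ 2 * (C * (1 + β)) :=
            mul_le_mul_of_nonneg_left h3 (by positivity)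
        _ = C * (2 * β * (1 + β)) / (1 + β ^ 2) ^ 2 := by ring
        _ ≤ C * (3 * (1 + β ^ 2)) / (1 + β ^ 2) ^ 2 := by
            apply div_le_div_of_nonneg_right _ (by positivity)
            apply mul_le_mul_of_nonneg_left _ hC0.le
            nlinarith [sq_nonneg (β - 1)]
        _ = _ := by field_simp
    have hnn : ∀ β : ℝ, 0 < β → 0 ≤ 2 * β / (1 + β ^ 2) ^ 2 * MM γ w F T β := by
      intro β hβ
      exact mul_nonneg (by positivity) (MM_nonneg I.ord.w_nonneg hT1 β)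
    have hfin : IntegrableOn (fun β : ℝ => 3 * C * (1 + β ^ 2)⁻¹) (Ioi 0) :=
      (integrable_inv_one_add_sq.const_mul _).integrableOn
    calc ∫ β in Ioi 0, 2 * β / (1 + β ^ 2) ^ 2 * MM γ w F T β ≤ ∫ β in Ioi (0 : ℝ), 3 * C * (1 + β ^ 2)⁻¹ := by
          apply integral_mono_of_nonneg
          · filter_upwards [ae_restrict_mem measurableSet_Ioi] with β hβ
            exact hnn β hβ
          · exact hfin
          · filter_upwards [ae_restrict_mem measurableSet_Ioi] with β hβ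
            exact hbd β hβ
      _ ≤ ∫ β : ℝ, 3 * C * (1 + β ^ 2)⁻¹ := by
          apply setIntegral_le_integral (integrable_inv_one_add_sq.const_mul _)
          exact ae_of_all _ fun β => by simp only [Pi.zero_apply]; positivity
      _ = 3 * C * ∫ v : ℝ, (1 + v ^ 2)⁻¹ := by rw [integral_const_mul]
      _ ≤ _ := by linarith

/-- Montgomery's theorem for the test functions `ph k θ` -/
lemma tendsto_ph (I : Inputs γ w F CR) {k : ℕ} (hk0 : 0 < k) {θ : ℝ} (h1 : 1 / 2 ≤ θ) (h2 : θ < 1) :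
    Tendsto (fun T => PP γ w F T (ph k θ)) atTop
      (𝓝 ((1 - (-1) ^ k) ^ 2 + θ ^ 2 * (3 / 2 - 4 * (1 - (-1) ^ k) / (π * k) ^ 2))) := by
  have h0 : 0 < θ := by linarith
  have h := I.montgomery (testFn_ph k h1 h2.le) h0 h2
  have e1 : cosT (ph k θ) 0 = (1 - (-1) ^ k) ^ 2 := by
    rw [cosT_ph k h1 h2.le, zero_div]
    unfold hk
    rw [cl_of_abs_le (by simp), mul_zero, Real.cos_zero, mul_one]
  have e2 : ∫ ξ, |ξ| * cosT (ph k θ) ξ = θ ^ 2 * (3 / 2 - 4 * (1 - (-1) ^ k) / (π * k) ^ 2) := by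
    simp_rw [cosT_ph k h1 h2.le]
    have h3 := Measure.integral_comp_div (fun x => |x| * hk k x) θ
    rw [abs_of_pos h0, smul_eq_mul, integral_abs_hk hk0] at h3
    have h4 : ∀ ξ, |ξ| * hk k (ξ / θ) = θ * (|ξ / θ| * hk k (ξ / θ)) := by
      intro ξ
      rw [abs_div, abs_of_pos h0]
      field_simp
    simp_rw [h4]
    rw [integral_const_mul, h3]
    ring
  rw [e1, e2] at h
  exact h

/-- lattice sums -/
lemma lattice_sum (I : Inputs γ w F CR) : ∃ K : ℝ, 0 < K ∧ ∀ (l : Filter ℝ), l ≤ atTop →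
    (∀ R ε : ℝ, 0 < R → 0 < ε → Tendsto (fun T => PP γ w F T (off ε R)) l (𝓝 0)) →
    ∀ (φ : ℝ → ℝ), Continuous φ → (∀ x, φ (-x) = φ x) → ∀ C : ℝ, 0 ≤ C → (∀ x, |φ x| ≤ C / (1 + x ^ 2) ^ 2) →
    ∀ (J : ℕ) (e : ℝ), 0 < e → ∀ᶠ T in l,
      |PP γ w F T φ - ∑ j ∈ Finset.range (J + 1), PP γ w F T (near j) * φ ((j : ℝ) / 2)| ≤ e + C * K / (1 + ((J : ℝ) / 2) ^ 2) := by
  obtain ⟨T0, C1, hT0, hC10, hC1⟩ := MM_bound I
  obtain ⟨T1, K, hT1, hK0, hK⟩ := PP_inv_bound I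
  refine ⟨K, hK0, fun l hl hoff φ hφ heven C hC0 hC J e he => ?_⟩
  have hw := I.ord.w_nonneg
  have hM : ∀ x, |φ x| ≤ C := by
    intro x
    refine (hC x).trans ?_
    apply div_le_self hC0
    nlinarith [sq_nonneg x, sq_nonneg (x ^ 2)]
  have hJ : (0 : ℝ) ≤ (J : ℝ) := Nat.cast_nonneg _
  set R : ℝ := (J : ℝ) / 2 + 1 / 4 with hR
  have hR0 : 0 < R := by positivity
  set ω : ℝ := e / (2 * (C1 * (1 + R))) with hω
  have hω0 : 0 < ω := by positivity
  have huc : UniformContinuousOn φ (Icc (-((J : ℝ) / 2 + 1)) ((J : ℝ) / 2 + 1)) :=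
    isCompact_Icc.uniformContinuousOn_of_continuous hφ.continuousOn
  rw [Metric.uniformContinuousOn_iff] at huc
  obtain ⟨d, hd0, hd⟩ := huc ω hω0
  set ε : ℝ := min d (1 / 8) with hε
  have hε0 : 0 < ε := by positivity
  have hε1 : ε < 1 / 4 := lt_of_le_of_lt (min_le_right _ _) (by norm_num)
  have hω' : ∀ x y : ℝ, 0 ≤ x → x ≤ (J : ℝ) / 2 + 1 → 0 ≤ y → y ≤ (J : ℝ) / 2 + 1 → |x - y| < ε → |φ x - φ y| ≤ ω := by
    intro x y hx0 hx1 hy0 hy1 hxy
    have := hd x ⟨by linarith, hx1⟩ y ⟨by linarith, hy1⟩ (by rw [Real.dist_eq]; exact lt_of_lt_of_le hxy (min_le_left _ _))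
    rw [Real.dist_eq] at this
    exact this.le
  have hpt := pointwise heven hC0 hM hC hω0.le hε1 hω'
  have h1 := hoff R ε hR0 hε0
  have h2 : ∀ᶠ T in l, PP γ w F T (off ε R) < e / (4 * (C + 1)) := h1.eventually (gt_mem_nhds (by positivity))
  filter_upwards [h2, hl (eventually_ge_atTop T0), hl (eventually_ge_atTop T1)] with T hT2 hTT0 hTT1
  have hT : 1 < T := lt_of_lt_of_le hT0 hTT0
  have e1 : PP γ w F T φ - ∑ j ∈ Finset.range (J + 1), PP γ w F T (near j) * φ ((j : ℝ) / 2)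
      = PP γ w F T (fun x => φ x - ∑ j ∈ Finset.range (J + 1), near j x * φ ((j : ℝ) / 2)) := by
    rw [PP_sub, PP_sum]
    congr 1
    apply Finset.sum_congr rfl
    intro j _
    have e2 : (fun x => near j x * φ ((j : ℝ) / 2)) = fun x => φ ((j : ℝ) / 2) * near j x := by ext x; ring
    rw [e2, PP_const_mul]
    ring
  rw [e1]
  have h3 := abs_PP_le (γ := γ) (F := F) hw hT hpt
  rw [PP_add, PP_add, PP_const_mul, PP_const_mul, PP_const_mul, ← MM_eq_PP] at h3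
  refine h3.trans ?_
  have h4 := hC1 T hTT0 R hR0.le
  have h5 := hK T hTT1
  have h6 : 0 ≤ PP γ w F T (off ε R) := PP_nonneg hw hT (off_nonneg ε R)
  have a1 : ω * MM γ w F T R ≤ e / 2 := by
    calc ω * MM γ w F T R ≤ ω * (C1 * (1 + R)) := mul_le_mul_of_nonneg_left h4 hω0.le
      _ = e / 2 := by rw [hω]; field_simp
  have a2 : 2 * C * PP γ w F T (off ε R) ≤ e / 2 := by
    calc 2 * C * PP γ w F T (off ε R) ≤ 2 * (C + 1) * (e / (4 * (C + 1))) := by
          apply mul_le_mul _ hT2.le h6 (by positivity)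
          linarith
      _ = e / 2 := by field_simp; ring
  have a3 : C / (1 + ((J : ℝ) / 2) ^ 2) * PP γ w F T (fun x => 1 / (1 + x ^ 2)) ≤ C * K / (1 + ((J : ℝ) / 2) ^ 2) := by
    rw [mul_div_right_comm]
    exact mul_le_mul_of_nonneg_left h5 (by positivity)
  linarith

end

end Pool.Agent.H84.AH
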