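import Mathlib
import Pool.Agent.H84.AH.V4
import Pool.Agent.H68.AH.Defs

/-!
# MP_103a5c_AH, section 6, file V5: the masses at `k/2`
-/

open MeasureTheory Set Filter Topology
open scoped Real Interval

namespace Pool.Agent.H84.AH

open Pool.Agent.H6 Pool.Agent

section
variable {ι : Type*} {γ w : ι → ℝ} {F : ℝ → Finset ι} {CR : ℝ} [Countable ι]

omit [Countable ι] in
lemma near_le_ind (j : ℕ) (x : ℝ) : near j x ≤ if |x| ≤ (j : ℝ) / 2 + 1 / 4 then 1 else 0 := by
  unfold near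
  split_ifs with h1 h2
  · exact le_rfl
  · exfalso
    have := (abs_lt.mp h1).2
    linarith
  · norm_num
  · exact le_rfl

omit [Countable ι] in
/-- bound for the masses -/
lemma W_bound (hw : ∀ i, 0 ≤ w i) {T0 C : ℝ} (hT0 : 1 < T0) (hC : ∀ T, T0 ≤ T → ∀ β, 0 ≤ β → MM γ w F T β ≤ C * (1 + β))
    {T : ℝ} (hT : T0 ≤ T) (j : ℕ) : PP γ w F T (near j) ≤ C * (1 + ((j : ℝ) / 2 + 1 / 4)) := by
  have h1 := PP_mono (γ := γ) (w := w) (F := F) hw (lt_of_lt_of_le hT0 hT) (near_le_ind j)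
  rw [← MM_eq_PP] at h1
  exact h1.trans (hC T hT _ (by positivity))

/-- the linear relation between the masses -/
lemma relation (I : Inputs γ w F CR) {l : Filter ℝ} (hl : l ≤ atTop)
    (hoff : ∀ R ε : ℝ, 0 < R → 0 < ε → Tendsto (fun T => PP γ w F T (off ε R)) l (𝓝 0)) {k : ℕ} (hk0 : 0 < k) :
    Tendsto (fun T => 3 * PP γ w F T (near 0) - 2 * (-1) ^ k * PP γ w F T (near k) + 1 / 2 * PP γ w F T (near (2 * k))) l
      (𝓝 ((1 - (-1) ^ k) ^ 2 + (3 / 2 - 4 * (1 - (-1) ^ k) / (π * k) ^ 2))) := by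
  obtain ⟨K, hK0, hK⟩ := lattice_sum I
  obtain ⟨C, hC0, hC⟩ := ph_decay k
  obtain ⟨T0, C1, hT0, hC10, hC1⟩ := MM_bound I
  have hw := I.ord.w_nonneg
  rw [Metric.tendsto_nhds]
  intro η hη
  -- choose J
  obtain ⟨J, hJ1, hJ2⟩ : ∃ J : ℕ, 2 * k ≤ J ∧ C * K / (1 + ((J : ℝ) / 2) ^ 2) < η / 5 := by
    have h1 : Tendsto (fun J : ℕ => C * K / (1 + ((J : ℝ) / 2) ^ 2)) atTop (𝓝 0) := by
      apply Tendsto.div_atTop tendsto_const_nhds
      apply tendsto_atTop_add_const_left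
      apply (tendsto_pow_atTop (by norm_num)).comp
      exact (tendsto_natCast_atTop_atTop).atTop_div_const (by norm_num)
    obtain ⟨N, hN⟩ := eventually_atTop.mp (h1.eventually (gt_mem_nhds (show 0 < η / 5 by positivity)))
    exact ⟨max N (2 * k), le_max_right _ _, hN _ (le_max_left _ _)⟩
  -- the combination as a sum
  have hsum : ∀ T, ∑ j ∈ Finset.range (J + 1), PP γ w F T (near j) * rk k ((j : ℝ) / 2)
      = 3 * PP γ w F T (near 0) - 2 * (-1) ^ k * PP γ w F T (near k) + 1 / 2 * PP γ w F T (near (2 * k)) := by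
    intro T
    have hsub : ({0, k, 2 * k} : Finset ℕ) ⊆ Finset.range (J + 1) := by
      intro j hj
      simp only [Finset.mem_insert, Finset.mem_singleton] at hj
      rw [Finset.mem_range]
      omega
    rw [← Finset.sum_subset hsub]
    · rw [Finset.sum_insert (by simp; omega), Finset.sum_insert (by simp; omega), Finset.sum_singleton, rk_self hk0, rk_double hk0]
      rw [Nat.cast_zero, zero_div, rk_zero hk0]
      ring
    · intro j _ hj
      simp only [Finset.mem_insert, Finset.mem_singleton, not_or] at hj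
      rw [rk_other hj.1 hj.2.1 hj.2.2, mul_zero]
  -- choose θ
  set B : ℝ := C1 * (1 + ((J : ℝ) / 2 + 1 / 4)) with hB
  have hB0 : 0 < B := by positivity
  set A : ℝ := 3 / 2 - 4 * (1 - (-1) ^ k) / (π * k) ^ 2 with hA
  have hcont : Tendsto (fun θ : ℝ => (∑ j ∈ Finset.range (J + 1), B * |ph k θ ((j : ℝ) / 2) - rk k ((j : ℝ) / 2)|)
      + |θ ^ 2 * A - A|) (𝓝 1) (𝓝 0) := by
    have h1 : Continuous fun θ : ℝ => (∑ j ∈ Finset.range (J + 1), B * |ph k θ ((j : ℝ) / 2) - rk k ((j : ℝ) / 2)|)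
        + |θ ^ 2 * A - A| := by
      apply Continuous.add
      · apply continuous_finset_sum
        intro j _
        apply continuous_const.mul
        apply Continuous.abs
        apply Continuous.sub _ continuous_const
        unfold ph
        exact continuous_id.mul ((continuous_rk k).comp (continuous_id.mul continuous_const))
      · fun_prop
    have h2 := h1.tendsto 1
    have h3 : (∑ j ∈ Finset.range (J + 1), B * |ph k 1 ((j : ℝ) / 2) - rk k ((j : ℝ) / 2)|) + |(1 : ℝ) ^ 2 * A - A| = 0 := by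
      unfold ph
      simp
    rw [h3] at h2
    exact h2
  obtain ⟨θ, hθ1, hθ2, hθ3⟩ : ∃ θ : ℝ, 1 / 2 ≤ θ ∧ θ < 1 ∧
      (∑ j ∈ Finset.range (J + 1), B * |ph k θ ((j : ℝ) / 2) - rk k ((j : ℝ) / 2)|) + |θ ^ 2 * A - A| < η / 5 := by
    have h1 := hcont.eventually (gt_mem_nhds (show 0 < η / 5 by positivity))
    rw [Metric.eventually_nhds_iff] at h1
    obtain ⟨d, hd0, hd⟩ := h1
    refine ⟨1 - min d 1 / 2, ?_, ?_, hd ?_⟩
    · have := min_le_right d 1; linarith
    · have : 0 < min d 1 := by positivity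
      linarith
    · have h2 : 0 < min d 1 := by positivity
      have h3 := min_le_left d 1
      rw [Real.dist_eq, show 1 - min d 1 / 2 - 1 = -(min d 1 / 2) by ring, abs_neg, abs_of_pos (by positivity)]
      linarith
  have h1 := hK l hl hoff (ph k θ) (continuous_ph k θ) (ph_neg k θ) C hC0 (hC θ hθ1 hθ2.le) J (η / 5) (by positivity)
  have h2 := (tendsto_ph I hk0 hθ1 hθ2).mono_left hl
  rw [← hA, Metric.tendsto_nhds] at h2
  filter_upwards [h1, h2 (η / 5) (by positivity), hl (eventually_ge_atTop T0)] with T hT1 hT2 hT3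
  rw [Real.dist_eq] at hT2 ⊢
  rw [← hsum T]
  have hT1' : 1 < T := lt_of_lt_of_le hT0 hT3
  have hW : ∀ j ∈ Finset.range (J + 1), PP γ w F T (near j) ≤ B := by
    intro j hj
    refine (W_bound hw hT0 hC1 hT3 j).trans ?_
    rw [hB]
    have h4 : (j : ℝ) ≤ J := by
      have := Finset.mem_range.mp hj
      exact_mod_cast (by omega : j ≤ J)
    apply mul_le_mul_of_nonneg_left _ hC10.le
    linarith
  have h3 : |∑ j ∈ Finset.range (J + 1), PP γ w F T (near j) * ph k θ ((j : ℝ) / 2)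
      - ∑ j ∈ Finset.range (J + 1), PP γ w F T (near j) * rk k ((j : ℝ) / 2)|
      ≤ ∑ j ∈ Finset.range (J + 1), B * |ph k θ ((j : ℝ) / 2) - rk k ((j : ℝ) / 2)| := by
    rw [← Finset.sum_sub_distrib]
    refine (Finset.abs_sum_le_sum_abs _ _).trans ?_
    apply Finset.sum_le_sum
    intro j hj
    rw [← mul_sub, abs_mul, abs_of_nonneg (PP_nonneg hw hT1' (near_nonneg j))]
    exact mul_le_mul_of_nonneg_right (hW j hj) (abs_nonneg _)
  have hA' := abs_le.mp (le_refl |θ ^ 2 * A - A|)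
  have a1 := abs_le.mp hT1
  have a2 := abs_lt.mp hT2
  have a3 := abs_le.mp h3
  rw [abs_lt]
  constructor <;> linarith [a1.1, a1.2, a2.1, a2.2, a3.1, a3.2, hA'.1, hA'.2]

/-- twice the value predicted at `k/2` -/
noncomputable def m2 (k : ℕ) : ℝ := 2 * H68.AH.mAH k

omit [Countable ι] in
lemma m2_even {k : ℕ} (hk0 : 0 < k) (hk : Even k) : m2 k = 1 := by
  unfold m2 H68.AH.mAH
  have hπ := Real.pi_pos
  rw [if_neg (by exact_mod_cast hk0.ne')]
  obtain ⟨r, hr⟩ := hk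
  have e : Real.sin (π * ((k : ℤ) : ℝ) / 2) = 0 := by
    have : π * ((k : ℤ) : ℝ) / 2 = (r : ℝ) * π := by
      rw [hr]; push_cast; ring
    rw [this]; exact Real.sin_nat_mul_pi r
  rw [e]
  norm_num

omit [Countable ι] in
lemma m2_odd {k : ℕ} (hk : Odd k) : m2 k = 1 - 4 / (π * k) ^ 2 := by
  unfold m2 H68.AH.mAH
  have hπ := Real.pi_pos
  have hk0 : 0 < k := hk.pos
  rw [if_neg (by exact_mod_cast hk0.ne')]
  obtain ⟨r, hr⟩ := hk
  have e : Real.sin (π * ((k : ℤ) : ℝ) / 2) ^ 2 = 1 := by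
    have h1 : π * ((k : ℤ) : ℝ) / 2 = (r : ℝ) * π + π / 2 := by
      rw [hr]; push_cast; ring
    rw [h1, Real.sin_add_pi_div_two, Real.cos_nat_mul_pi, ← pow_mul, mul_comm, pow_mul]
    norm_num
  have hk' : (0 : ℝ) < k := by positivity
  rw [div_pow, e]
  push_cast
  field_simp
  ring

omit [Countable ι] in
lemma m2_rel {k : ℕ} (hk0 : 0 < k) : 3 - 2 * (-1) ^ k * m2 k + 1 / 2 * m2 (2 * k)
    = (1 - (-1) ^ k) ^ 2 + (3 / 2 - 4 * (1 - (-1) ^ k) / (π * k) ^ 2) := by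
  rw [m2_even (k := 2 * k) (by omega) (even_two_mul k)]
  rcases Nat.even_or_odd k with h | h
  · rw [m2_even hk0 h, h.neg_one_pow]; norm_num
  · rw [m2_odd h, h.neg_one_pow]; ring

omit [Countable ι] in
lemma m2_abs (k : ℕ) (hk0 : 0 < k) : |m2 k| ≤ 1 := by
  rcases Nat.even_or_odd k with h | h
  · rw [m2_even hk0 h]; norm_num
  · rw [m2_odd h]
    have hπ := Real.pi_gt_three
    have hk' : (1 : ℝ) ≤ k := by exact_mod_cast hk0
    have h1 : 4 / (π * k) ^ 2 ≤ 1 := by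
      rw [div_le_one (by positivity)]
      nlinarith [mul_le_mul hπ.le hk' (by norm_num) (by linarith)]
    have h2 : 0 ≤ 4 / (π * k) ^ 2 := by positivity
    rw [abs_le]
    constructor <;> linarith

/-- the masses converge -/
theorem W_tendsto (I : Inputs γ w F CR) {l : Filter ℝ} (hl : l ≤ atTop)
    (hoff : ∀ R ε : ℝ, 0 < R → 0 < ε → Tendsto (fun T => PP γ w F T (off ε R)) l (𝓝 0))
    (h0 : Tendsto (fun T => PP γ w F T (near 0)) l (𝓝 1)) {k : ℕ} (hk0 : 0 < k) :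
    Tendsto (fun T => PP γ w F T (near k)) l (𝓝 (m2 k)) := by
  obtain ⟨T0, C1, hT0, hC10, hC1⟩ := MM_bound I
  have hw := I.ord.w_nonneg
  -- the recursion
  have hrec : ∀ k : ℕ, 0 < k → ∀ η : ℝ, 0 < η → ∀ᶠ T in l,
      |PP γ w F T (near k) - m2 k| ≤ |PP γ w F T (near (2 * k)) - m2 (2 * k)| / 4 + η := by
    intro k hk0 η hη
    have h1 := relation I hl hoff hk0
    rw [← m2_rel hk0] at h1
    have h2 := (h1.sub (h0.const_mul 3)).sub_const (-(2 * (-1) ^ k * m2 k) + 1 / 2 * m2 (2 * k))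
    have e : 3 - 2 * (-1) ^ k * m2 k + 1 / 2 * m2 (2 * k) - 3 * 1 - (-(2 * (-1) ^ k * m2 k) + 1 / 2 * m2 (2 * k)) = 0 := by ring
    rw [e] at h2
    rw [Metric.tendsto_nhds] at h2
    filter_upwards [h2 η hη] with T hT
    rw [Real.dist_eq, sub_zero] at hT
    have e2 : 3 * PP γ w F T (near 0) - 2 * (-1) ^ k * PP γ w F T (near k) + 1 / 2 * PP γ w F T (near (2 * k))
        - 3 * PP γ w F T (near 0) - (-(2 * (-1) ^ k * m2 k) + 1 / 2 * m2 (2 * k))
        = -(2 * (-1) ^ k * (PP γ w F T (near k) - m2 k)) + 1 / 2 * (PP γ w F T (near (2 * k)) - m2 (2 * k)) := by ring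
    rw [e2] at hT
    have h3 : |2 * (-1) ^ k * (PP γ w F T (near k) - m2 k)| = 2 * |PP γ w F T (near k) - m2 k| := by
      rw [abs_mul, abs_mul, abs_pow, abs_neg, abs_one, one_pow, abs_of_pos (by norm_num : (0 : ℝ) < 2), mul_one]
    have h4 : |1 / 2 * (PP γ w F T (near (2 * k)) - m2 (2 * k))| = 1 / 2 * |PP γ w F T (near (2 * k)) - m2 (2 * k)| := by
      rw [abs_mul, abs_of_pos (by norm_num : (0 : ℝ) < 1 / 2)]
    set X := 2 * (-1) ^ k * (PP γ w F T (near k) - m2 k) with hX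
    set Y := 1 / 2 * (PP γ w F T (near (2 * k)) - m2 (2 * k)) with hY
    have h5 : |X| ≤ |Y| + |(-X + Y)| := by
      have : X = Y - (-X + Y) := by ring
      calc |X| = |Y - (-X + Y)| := by rw [← this]
        _ ≤ _ := abs_sub _ _
    rw [h3, h4] at h5
    linarith
  have hiter : ∀ n : ℕ, ∀ k : ℕ, 0 < k → ∀ η : ℝ, 0 < η → ∀ᶠ T in l,
      |PP γ w F T (near k) - m2 k| ≤ |PP γ w F T (near (2 ^ n * k)) - m2 (2 ^ n * k)| / 4 ^ n + η := by
    intro n
    induction n with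
    | zero =>
      intro k hk0 η hη
      filter_upwards with T
      simp
      exact hη.le
    | succ n ih =>
      intro k hk0 η hη
      have h1 := ih k hk0 (η / 2) (by positivity)
      have h2 := hrec (2 ^ n * k) (by positivity) (η / 2) (by positivity)
      filter_upwards [h1, h2] with T hT1 hT2
      have e : 2 * (2 ^ n * k) = 2 ^ (n + 1) * k := by ring
      rw [e] at hT2
      have h4 : (0 : ℝ) < 4 ^ n := by positivity
      have h41 : (1 : ℝ) ≤ 4 ^ n := one_le_pow₀ (by norm_num)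
      calc |PP γ w F T (near k) - m2 k| ≤ |PP γ w F T (near (2 ^ n * k)) - m2 (2 ^ n * k)| / 4 ^ n + η / 2 := hT1
        _ ≤ (|PP γ w F T (near (2 ^ (n + 1) * k)) - m2 (2 ^ (n + 1) * k)| / 4 + η / 2) / 4 ^ n + η / 2 := by
            gcongr
        _ = |PP γ w F T (near (2 ^ (n + 1) * k)) - m2 (2 ^ (n + 1) * k)| / 4 ^ (n + 1) + η / 2 / 4 ^ n + η / 2 := by
            rw [pow_succ (4 : ℝ)]; field_simp
        _ ≤ _ := by
            have : η / 2 / 4 ^ n ≤ η / 2 := div_le_self (by positivity) h41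
            linarith
  rw [Metric.tendsto_nhds]
  intro η hη
  set B : ℝ := C1 * 3 + 1 with hB
  have hlim : Tendsto (fun n : ℕ => B * (1 + (k : ℝ)) * (1 / 2 : ℝ) ^ n) atTop (𝓝 0) := by
    have := (tendsto_pow_atTop_nhds_zero_of_lt_one (by norm_num : (0 : ℝ) ≤ 1 / 2) (by norm_num)).const_mul (B * (1 + (k : ℝ)))
    rwa [mul_zero] at this
  obtain ⟨n, hn⟩ := (hlim.eventually (gt_mem_nhds (show 0 < η / 2 by positivity))).exists
  filter_upwards [hiter n k hk0 (η / 4) (by positivity), hl (eventually_ge_atTop T0)] with T hT1 hT2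
  rw [Real.dist_eq]
  have hT' : 1 < T := lt_of_lt_of_le hT0 hT2
  have hp : 0 < 2 ^ n * k := by positivity
  have h1 := W_bound hw hT0 hC1 hT2 (2 ^ n * k)
  have h2 : 0 ≤ PP γ w F T (near (2 ^ n * k)) := PP_nonneg hw hT' (near_nonneg _)
  have h3 := m2_abs (2 ^ n * k) hp
  have h4 : |PP γ w F T (near (2 ^ n * k)) - m2 (2 ^ n * k)| ≤ B * (1 + 2 ^ n * k) := by
    refine (abs_sub _ _).trans ?_
    rw [abs_of_nonneg h2]
    push_cast at h1
    have h5 : (0 : ℝ) ≤ 2 ^ n * k := by positivity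
    have h6 : C1 * (1 + (2 ^ n * (k : ℝ) / 2 + 1 / 4)) ≤ C1 * (3 * (1 + 2 ^ n * k)) :=
      mul_le_mul_of_nonneg_left (by linarith) hC10.le
    rw [hB]
    nlinarith
  have h5 : B * (1 + 2 ^ n * k) / 4 ^ n ≤ B * (1 + (k : ℝ)) * (1 / 2 : ℝ) ^ n := by
    have h6 : (1 : ℝ) ≤ 2 ^ n := one_le_pow₀ (by norm_num)
    have e : (4 : ℝ) ^ n = 2 ^ n * 2 ^ n := by rw [← mul_pow]; norm_num
    have e2 : (1 / 2 : ℝ) ^ n = 1 / 2 ^ n := by rw [div_pow, one_pow]
    rw [e, e2, div_le_iff₀ (by positivity)]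
    have e3 : B * (1 + (k : ℝ)) * (1 / 2 ^ n) * (2 ^ n * 2 ^ n) = B * ((1 + k) * 2 ^ n) := by field_simp
    rw [e3]
    have hB0 : 0 < B := by positivity
    apply mul_le_mul_of_nonneg_left _ hB0.le
    nlinarith
  have h7 : |PP γ w F T (near (2 ^ n * k)) - m2 (2 ^ n * k)| / 4 ^ n ≤ B * (1 + 2 ^ n * k) / 4 ^ n :=
    div_le_div_of_nonneg_right h4 (by positivity)
  linarith

end

end Pool.Agent.H84.AH
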