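import Mathlib
import Pool.Agent.H84.AH.V5
import Pool.Agent.H6.Final

/-!
# MP_103a5c_AH, section 6, file V6: windows, and the theorem in terms of `PC.pairCount`
-/

open MeasureTheory Set Filter Topology
open scoped Real Interval

namespace Pool.Agent.H84.AH

open Pool.Agent.H6 Pool.Agent

/-- indicator of `[a,b]` -/
noncomputable def ind (a b x : ℝ) : ℝ := if a ≤ x ∧ x ≤ b then 1 else 0

/-- indicator of `|x - k/2| < 1/4` -/
noncomputable def nearZ (k : ℤ) (x : ℝ) : ℝ := if |x - (k : ℝ) / 2| < 1 / 4 then 1 else 0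

lemma near_zero_eq (x : ℝ) : near 0 x = nearZ 0 x := by
  unfold near nearZ
  simp

lemma near_eq {n : ℕ} (hn : 0 < n) (x : ℝ) : near n x = nearZ n x + nearZ (-n) x := by
  unfold near nearZ
  have hn' : (1 : ℝ) ≤ n := by exact_mod_cast hn
  push_cast
  rcases le_total 0 x with hx | hx
  · rw [abs_of_nonneg hx, if_neg (c := |x - -(n : ℝ) / 2| < 1 / 4), add_zero]
    rw [not_lt, le_abs]
    left; linarith
  · rw [abs_of_nonpos hx, if_neg (c := |x - (n : ℝ) / 2| < 1 / 4), zero_add]
    · have e : |(-x - (n : ℝ) / 2)| = |x - -(n : ℝ) / 2| := by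
        rw [← abs_neg]; congr 1; ring
      rw [e]
    · rw [not_lt, le_abs]
      right; linarith

lemma nearZ_neg (k : ℤ) (x : ℝ) : nearZ (-k) x = nearZ k (-x) := by
  unfold nearZ
  push_cast
  have e : |x - -(k : ℝ) / 2| = |(-x - (k : ℝ) / 2)| := by
    rw [← abs_neg]; congr 1; ring
  rw [e]

lemma mAH_neg (k : ℤ) : H68.AH.mAH (-k) = H68.AH.mAH k := by
  unfold H68.AH.mAH
  have e : π * ((-k : ℤ) : ℝ) / 2 = -(π * (k : ℝ) / 2) := by push_cast; ring
  rw [e, Real.sin_neg, neg_div_neg_eq]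
  simp

lemma exists_gap {a : ℝ} (ha : ∀ k : ℤ, a ≠ k / 2) : ∃ ε : ℝ, 0 < ε ∧ ∀ k : ℤ, ε ≤ |a - k / 2| := by
  set n := ⌊2 * a⌋ with hn
  have h1 : (n : ℝ) ≤ 2 * a := Int.floor_le _
  have h2 : 2 * a < n + 1 := Int.lt_floor_add_one _
  have h3 : (n : ℝ) ≠ 2 * a := by
    intro h
    exact ha n (by linarith)
  have h4 : (n : ℝ) < 2 * a := lt_of_le_of_ne h1 h3
  refine ⟨min (a - n / 2) ((n + 1) / 2 - a), by apply lt_min <;> linarith, fun k => ?_⟩
  rcases le_or_gt k n with h | h
  · refine (min_le_left _ _).trans ?_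
    have : (k : ℝ) ≤ n := by exact_mod_cast h
    refine le_trans ?_ (le_abs_self _)
    linarith
  · refine (min_le_right _ _).trans ?_
    have : (n : ℝ) + 1 ≤ k := by exact_mod_cast h
    refine le_trans ?_ (neg_le_abs _)
    linarith

lemma nearZ_nonneg (k : ℤ) (x : ℝ) : 0 ≤ nearZ k x := by unfold nearZ; split_ifs <;> norm_num

lemma nearZ_unique {i j : ℤ} {x : ℝ} (hi : |x - (i : ℝ) / 2| < 1 / 4) (hj : |x - (j : ℝ) / 2| < 1 / 4) : i = j := by
  have h1 := abs_lt.mp hi
  have h2 := abs_lt.mp hj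
  have h3 : (i : ℝ) - j < 1 := by linarith [h1.1, h2.2]
  have h4 : (j : ℝ) - i < 1 := by linarith [h1.2, h2.1]
  have h5 : i < j + 1 := by exact_mod_cast (by linarith : (i : ℝ) < j + 1)
  have h6 : j < i + 1 := by exact_mod_cast (by linarith : (j : ℝ) < i + 1)
  omega

lemma pointwise2 {a b ε : ℝ} (S : Finset ℤ) (hS : ∀ k : ℤ, k ∈ S ↔ a ≤ (k : ℝ) / 2 ∧ (k : ℝ) / 2 ≤ b) (hε1 : ε ≤ 1 / 4)
    (ha : ∀ k : ℤ, ε ≤ |a - k / 2|) (hb : ∀ k : ℤ, ε ≤ |b - k / 2|) (x : ℝ) :
    |ind a b x - ∑ k ∈ S, nearZ k x| ≤ off ε (max |a| |b| + 1) x := by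
  rcases le_or_gt |x| (max |a| |b| + 1) with hx | hx
  · by_cases hoff : ∀ k : ℤ, ε ≤ |x - k / 2|
    · have e : off ε (max |a| |b| + 1) x = 1 := by unfold off; rw [if_pos ⟨hx, hoff⟩]
      rw [e]
      have h1 : 0 ≤ ind a b x ∧ ind a b x ≤ 1 := by unfold ind; split_ifs <;> norm_num
      have h2 : 0 ≤ ∑ k ∈ S, nearZ k x ∧ ∑ k ∈ S, nearZ k x ≤ 1 := by
        constructor
        · exact Finset.sum_nonneg fun k _ => nearZ_nonneg k x
        · by_cases h : ∃ k ∈ S, |x - (k : ℝ) / 2| < 1 / 4
          · obtain ⟨k, hk, hk2⟩ := h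
            rw [Finset.sum_eq_single k]
            · unfold nearZ; rw [if_pos hk2]
            · intro j _ hj
              unfold nearZ
              rw [if_neg]
              intro h2
              exact hj (nearZ_unique h2 hk2)
            · intro h2; exact absurd hk h2
          · push Not at h
            rw [Finset.sum_eq_zero]
            · norm_num
            · intro k hk
              unfold nearZ
              rw [if_neg (not_lt.mpr (h k hk))]
      rw [abs_le]
      constructor <;> linarith [h1.1, h1.2, h2.1, h2.2]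
    · push Not at hoff
      obtain ⟨k, hk⟩ := hoff
      have hk4 : |x - (k : ℝ) / 2| < 1 / 4 := lt_of_lt_of_le hk hε1
      have hsum : ∑ j ∈ S, nearZ j x = if k ∈ S then 1 else 0 := by
        split_ifs with hkS
        · rw [Finset.sum_eq_single k]
          · unfold nearZ; rw [if_pos hk4]
          · intro j _ hj
            unfold nearZ
            rw [if_neg]
            intro h2
            exact hj (nearZ_unique h2 hk4)
          · intro h2; exact absurd hkS h2
        · apply Finset.sum_eq_zero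
          intro j hj
          unfold nearZ
          rw [if_neg]
          intro h2
          exact hkS (nearZ_unique h2 hk4 ▸ hj)
      have hind : ind a b x = if k ∈ S then 1 else 0 := by
        unfold ind
        have hk' := abs_lt.mp hk
        have a1 := ha k
        have b1 := hb k
        have iff1 : (a ≤ x ∧ x ≤ b) ↔ k ∈ S := by
          rw [hS k]
          constructor
          · rintro ⟨h1, h2⟩
            constructor
            · by_contra h
              rw [abs_of_nonneg (by linarith)] at a1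
              linarith
            · by_contra h
              rw [abs_of_nonpos (by linarith)] at b1
              linarith
          · rintro ⟨h1, h2⟩
            constructor
            · rw [abs_of_nonpos (by linarith)] at a1
              linarith
            · rw [abs_of_nonneg (by linarith)] at b1
              linarith
        by_cases h : k ∈ S
        · rw [if_pos h, if_pos (iff1.mpr h)]
        · rw [if_neg h, if_neg (fun h2 => h (iff1.mp h2))]
      rw [hsum, hind, sub_self, abs_zero]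
      exact off_nonneg _ _ _
  · have h1 : ind a b x = 0 := by
      unfold ind
      rw [if_neg]
      rintro ⟨h1, h2⟩
      have h3 : |x| ≤ max |a| |b| := abs_le_max_abs_abs h1 h2
      linarith
    have h2 : ∑ k ∈ S, nearZ k x = 0 := by
      apply Finset.sum_eq_zero
      intro k hk
      unfold nearZ
      rw [if_neg]
      intro h
      obtain ⟨h3, h4⟩ := (hS k).mp hk
      have h5 : |(k : ℝ) / 2| ≤ max |a| |b| := abs_le_max_abs_abs h3 h4
      have h6 : |x| ≤ |x - (k : ℝ) / 2| + |(k : ℝ) / 2| := by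
        have : x = (x - (k : ℝ) / 2) + (k : ℝ) / 2 := by ring
        calc |x| = |(x - (k : ℝ) / 2) + (k : ℝ) / 2| := by rw [← this]
          _ ≤ _ := abs_add_le _ _
      linarith
    rw [h1, h2, sub_zero, abs_zero]
    exact off_nonneg _ _ _

section
variable {ι : Type*} {γ w : ι → ℝ} {F : ℝ → Finset ι} {CR : ℝ} [Countable ι]

/-- the diagonal -/
lemma near0_tendsto (I : Inputs γ w F CR) (hw1 : ∀ i, 1 ≤ w i) {l : Filter ℝ} (hl : l ≤ atTop)
    (h : Tendsto (fun T => PP γ w F T (ind 0 (1 / 4))) l (𝓝 1)) : Tendsto (fun T => PP γ w F T (near 0)) l (𝓝 1) := by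
  have hw := I.ord.w_nonneg
  have hc := I.count.mono_left hl
  have h2 : Tendsto (fun T => 2 * PP γ w F T (ind 0 (1 / 4)) - (1 / PC.norm T) * ∑ i ∈ F T, w i) l (𝓝 1) := by
    have := (h.const_mul 2).sub hc
    rw [show (2 : ℝ) * 1 - 1 = 1 by norm_num] at this
    exact this
  have hdiag : ∀ T : ℝ, 1 < T → (1 / PC.norm T) * ∑ i ∈ F T, w i ≤ PP γ w F T (fun x => if x = 0 then 1 else 0) := by
    intro T hT
    have hn := norm_pos hT
    unfold PP
    apply mul_le_mul_of_nonneg_left _ (by positivity)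
    apply Finset.sum_le_sum
    intro i hi
    have h0 : ∀ j ∈ F T, 0 ≤ w i * w j * (if (γ i - γ j) * Real.log T / (2 * π) = 0 then (1 : ℝ) else 0) := by
      intro j _
      apply mul_nonneg (mul_nonneg (hw i) (hw j))
      split_ifs <;> norm_num
    refine le_trans ?_ (Finset.single_le_sum h0 hi)
    rw [if_pos (by simp)]
    nlinarith [hw1 i]
  apply tendsto_of_tendsto_of_tendsto_of_le_of_le' hc h2
  · filter_upwards [hl (eventually_gt_atTop 1)] with T hT
    refine (hdiag T hT).trans ?_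
    apply PP_mono hw hT
    intro x
    unfold near
    split_ifs with h1 h2 h3
    · exact le_rfl
    · exfalso
      rw [h1] at h2
      norm_num at h2
    · norm_num
    · exact le_rfl
  · filter_upwards [hl (eventually_gt_atTop 1)] with T hT
    have e1 : PP γ w F T (fun x => (ind 0 (1 / 4) x + ind 0 (1 / 4) (-x)) - (if x = 0 then 1 else 0))
        = 2 * PP γ w F T (ind 0 (1 / 4)) - PP γ w F T (fun x => if x = 0 then 1 else 0) := by
      rw [PP_sub, PP_add, PP_symm]
      ring
    have h3 : PP γ w F T (near 0) ≤ 2 * PP γ w F T (ind 0 (1 / 4)) - PP γ w F T (fun x => if x = 0 then 1 else 0) := by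
      rw [← e1]
      apply PP_mono hw hT
      intro x
      rw [near_zero_eq]
      unfold nearZ ind
      rcases lt_trichotomy x 0 with hx | hx | hx
      · rw [if_neg (c := (0 : ℝ) ≤ x ∧ x ≤ 1 / 4) (fun h => by linarith [h.1]), if_neg hx.ne, zero_add, sub_zero]
        split_ifs with h1 h2
        · exact le_rfl
        · exfalso
          apply h2
          rw [Int.cast_zero, zero_div, sub_zero, abs_of_neg hx] at h1
          exact ⟨by linarith, h1.le⟩
        · norm_num
        · exact le_rfl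
      · rw [hx]; norm_num
      · rw [if_neg (c := (0 : ℝ) ≤ -x ∧ -x ≤ 1 / 4) (fun h => by linarith [h.1]), if_neg hx.ne', add_zero, sub_zero]
        split_ifs with h1 h2
        · exact le_rfl
        · exfalso
          apply h2
          rw [Int.cast_zero, zero_div, sub_zero, abs_of_pos hx] at h1
          exact ⟨by linarith, h1.le⟩
        · norm_num
        · exact le_rfl
    have h4 := hdiag T hT
    linarith

lemma nearZ_tendsto (I : Inputs γ w F CR) {l : Filter ℝ} (hl : l ≤ atTop)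
    (hoff : ∀ R ε : ℝ, 0 < R → 0 < ε → Tendsto (fun T => PP γ w F T (off ε R)) l (𝓝 0))
    (h0 : Tendsto (fun T => PP γ w F T (near 0)) l (𝓝 1)) (k : ℤ) :
    Tendsto (fun T => PP γ w F T (nearZ k)) l (𝓝 (H68.AH.mAH k)) := by
  have hpos : ∀ n : ℕ, 0 < n → Tendsto (fun T => PP γ w F T (nearZ n)) l (𝓝 (H68.AH.mAH n)) := by
    intro n hn
    have h1 := (W_tendsto I hl hoff h0 hn).const_mul (1 / 2)
    have e : ∀ T, 1 / 2 * PP γ w F T (near n) = PP γ w F T (nearZ n) := by
      intro T
      have e1 : near n = fun x => nearZ n x + nearZ n (-x) := by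
        ext x
        rw [near_eq hn, nearZ_neg]
      rw [e1, PP_add, PP_symm]
      ring
    simp_rw [e] at h1
    unfold m2 at h1
    rw [← mul_assoc] at h1
    norm_num at h1
    exact h1
  rcases lt_trichotomy k 0 with hk | hk | hk
  · obtain ⟨n, hn⟩ := Int.eq_ofNat_of_zero_le (show 0 ≤ -k by omega)
    have hn0 : 0 < n := by omega
    have e : k = -(n : ℤ) := by omega
    rw [e, mAH_neg]
    have e2 : ∀ T, PP γ w F T (nearZ (-(n : ℤ))) = PP γ w F T (nearZ n) := by
      intro T
      have e1 : nearZ (-(n : ℤ)) = fun x => nearZ n (-x) := by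
        ext x; rw [nearZ_neg]
      rw [e1, PP_symm]
    simp_rw [e2]
    exact hpos n hn0
  · rw [hk]
    have e : near 0 = nearZ 0 := by ext x; exact near_zero_eq x
    rw [← e]
    unfold H68.AH.mAH
    rw [if_pos rfl]
    exact h0
  · obtain ⟨n, hn⟩ := Int.eq_ofNat_of_zero_le hk.le
    rw [hn]
    exact hpos n (by omega)

theorem window (I : Inputs γ w F CR) (hw1 : ∀ i, 1 ≤ w i) {l : Filter ℝ} (hl : l ≤ atTop)
    (hoff : ∀ R ε : ℝ, 0 < R → 0 < ε → Tendsto (fun T => PP γ w F T (off ε R)) l (𝓝 0))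
    (h : Tendsto (fun T => PP γ w F T (ind 0 (1 / 4))) l (𝓝 1))
    {a b : ℝ} (ha : ∀ k : ℤ, a ≠ k / 2) (hb : ∀ k : ℤ, b ≠ k / 2) :
    Tendsto (fun T => PP γ w F T (ind a b)) l (𝓝 (H68.AH.predAH a b)) := by
  have hw := I.ord.w_nonneg
  have h0 := near0_tendsto I hw1 hl h
  obtain ⟨ε1, hε1, ha'⟩ := exists_gap ha
  obtain ⟨ε2, hε2, hb'⟩ := exists_gap hb
  set ε : ℝ := min (min ε1 ε2) (1 / 4) with hε
  have hε0 : 0 < ε := by positivity
  set S : Finset ℤ := Finset.Icc ⌈2 * a⌉ ⌊2 * b⌋ with hSdef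
  have hS : ∀ k : ℤ, k ∈ S ↔ a ≤ (k : ℝ) / 2 ∧ (k : ℝ) / 2 ≤ b := by
    intro k
    rw [hSdef, Finset.mem_Icc, Int.ceil_le, Int.le_floor]
    constructor
    · rintro ⟨h1, h2⟩; constructor <;> linarith
    · rintro ⟨h1, h2⟩; constructor <;> linarith
  have hpt := pointwise2 (a := a) (b := b) (ε := ε) S hS (min_le_right _ _)
    (fun k => ((min_le_left _ _).trans (min_le_left _ _)).trans (ha' k))
    (fun k => ((min_le_left _ _).trans (min_le_right _ _)).trans (hb' k))
  have hR : 0 < max |a| |b| + 1 := by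
    have : 0 ≤ max |a| |b| := (abs_nonneg a).trans (le_max_left _ _)
    linarith
  have hoff' := hoff (max |a| |b| + 1) ε hR hε0
  have hpred : H68.AH.predAH a b = ∑ k ∈ S, H68.AH.mAH k := by
    unfold H68.AH.predAH
    have e : {k : ℤ | a ≤ (k : ℝ) / 2 ∧ (k : ℝ) / 2 ≤ b} = (S : Set ℤ) := by
      ext k
      rw [Finset.mem_coe, hS k]
      rfl
    rw [e, finsum_mem_coe_finset]
  rw [hpred]
  have h1 : Tendsto (fun T => ∑ k ∈ S, PP γ w F T (nearZ k)) l (𝓝 (∑ k ∈ S, H68.AH.mAH k)) :=
    tendsto_finset_sum _ fun k _ => nearZ_tendsto I hl hoff h0 k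
  have h2 : Tendsto (fun T => PP γ w F T (ind a b) - ∑ k ∈ S, PP γ w F T (nearZ k)) l (𝓝 0) := by
    apply squeeze_zero_norm' _ hoff'
    filter_upwards [hl (eventually_gt_atTop 1)] with T hT
    rw [Real.norm_eq_abs, ← PP_sum, ← PP_sub]
    exact abs_PP_le hw hT hpt
  have h3 := h2.add h1
  rw [zero_add] at h3
  apply h3.congr
  intro T
  ring

end

/-- `N(T;a,b) / norm T` as a pair functional -/
lemma pairCount_div (RH : RiemannHypothesis) {T : ℝ} (hT : 1 < T) (a b : ℝ) :
    PC.pairCount T a b / PC.norm T = PP gZ wZ FZ T (ind a b) := by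
  have hL := Real.log_pos hT
  have hπ := Real.pi_pos
  rw [pairCount_eq RH]
  unfold PP
  rw [div_eq_mul_one_div, mul_comm]
  congr 1
  apply Finset.sum_congr rfl
  intro i _
  apply Finset.sum_congr rfl
  intro j _
  unfold ind
  have e1 : (2 * π * a / Real.log T ≤ gZ i - gZ j ∧ gZ i - gZ j ≤ 2 * π * b / Real.log T)
      ↔ (a ≤ (gZ i - gZ j) * Real.log T / (2 * π) ∧ (gZ i - gZ j) * Real.log T / (2 * π) ≤ b) := by
    rw [div_le_iff₀ hL, le_div_iff₀ hL, le_div_iff₀ (by positivity), div_le_iff₀ (by positivity)]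
    constructor
    · rintro ⟨h1, h2⟩; constructor <;> linarith
    · rintro ⟨h1, h2⟩; constructor <;> linarith
  by_cases h : (2 * π * a / Real.log T ≤ gZ i - gZ j ∧ gZ i - gZ j ≤ 2 * π * b / Real.log T)
  · rw [if_pos h, if_pos (e1.mp h), mul_one]
  · rw [if_neg h, if_neg (fun h2 => h (e1.mpr h2)), mul_zero]

/-- **Section 6.** If the differences of the zeros are near `(1/2)ℤ` along `l`, the pair counts have the AH values. -/
theorem main_of_off (RH : RiemannHypothesis) {l : Filter ℝ} (hF : H68.AH.Hyp l)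
    (hoff : ∀ R ε : ℝ, 0 < R → 0 < ε → Tendsto (fun T => (1 / PC.norm T) * ∑ i ∈ FZ T, ∑ j ∈ FZ T,
      (open Classical in if |(gZ i - gZ j) * Real.log T / (2 * π)| ≤ R ∧
        ∀ k : ℤ, ε ≤ |(gZ i - gZ j) * Real.log T / (2 * π) - k / 2| then wZ i * wZ j else 0)) l (𝓝 0))
    {a b : ℝ} (ha : ∀ k : ℤ, a ≠ k / 2) (hb : ∀ k : ℤ, b ≠ k / 2) :
    Tendsto (fun T => PC.pairCount T a b / PC.norm T) l (𝓝 (H68.AH.predAH a b)) := by
  obtain ⟨CR, I⟩ := exists_inputs RH
  have hoff' : ∀ R ε : ℝ, 0 < R → 0 < ε → Tendsto (fun T => PP gZ wZ FZ T (off ε R)) l (𝓝 0) := by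
    intro R ε hR hε
    apply (hoff R ε hR hε).congr
    intro T
    unfold PP
    congr 1
    apply Finset.sum_congr rfl
    intro i _
    apply Finset.sum_congr rfl
    intro j _
    unfold off
    split_ifs <;> ring
  have h : Tendsto (fun T => PP gZ wZ FZ T (ind 0 (1 / 4))) l (𝓝 1) := by
    apply (hF.tend (1 / 4) (by norm_num) (by norm_num)).congr'
    filter_upwards [hF.le (eventually_gt_atTop 1)] with T hT
    exact pairCount_div RH hT _ _
  have h2 := window I one_le_wZ hF.le hoff' h ha hb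
  apply h2.congr'
  filter_upwards [hF.le (eventually_gt_atTop 1)] with T hT
  exact (pairCount_div RH hT _ _).symm

end Pool.Agent.H84.AH
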