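import Mathlib
import Pool.Agent.H84.AH.V6

/-!
# MP_103a5c_AH, file V7: from the filter version to the version with `ε`, uniform in the window
-/

open MeasureTheory Set Filter Topology
open scoped Real Interval

namespace Pool.Agent.H84.AH

open Pool.Agent.H6 Pool.Agent

/-- the filter version of the theorem -/
def MainP : Prop := ∀ FF : Filter ℝ, H68.AH.Hyp FF → ∀ a b : ℝ, (∀ k : ℤ, a ≠ k / 2) → (∀ k : ℤ, b ≠ k / 2) →
  Tendsto (fun T => PC.pairCount T a b / PC.norm T) FF (𝓝 (H68.AH.predAH a b))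

lemma pairCount_mono (RH : RiemannHypothesis) {T : ℝ} (hT : 1 < T) {a a' b b' : ℝ} (ha : a' ≤ a) (hb : b ≤ b') :
    PC.pairCount T a b ≤ PC.pairCount T a' b' := by
  have hn := norm_pos hT
  have h1 := pairCount_div RH hT a b
  have h2 := pairCount_div RH hT a' b'
  have h3 : PP gZ wZ FZ T (ind a b) ≤ PP gZ wZ FZ T (ind a' b') := by
    apply PP_mono wZ_nonneg hT
    intro x
    unfold ind
    split_ifs with h4 h5
    · exact le_rfl
    · exact absurd ⟨ha.trans h4.1, h4.2.trans hb⟩ h5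
    · norm_num
    · exact le_rfl
  rw [← h1, ← h2] at h3
  exact (div_le_div_iff_of_pos_right hn).mp h3

/-- the diagonal: `N(T; 0, b) ≥ (1 - o(1)) norm T` -/
lemma diag_lower (RH : RiemannHypothesis) : ∃ f : ℝ → ℝ, Tendsto f atTop (𝓝 1) ∧ ∀ T : ℝ, 1 < T → ∀ b : ℝ, 0 ≤ b →
    f T ≤ PC.pairCount T 0 b / PC.norm T := by
  obtain ⟨CR, I⟩ := exists_inputs RH
  refine ⟨_, I.count, fun T hT b hb => ?_⟩
  have hn := norm_pos hT
  rw [pairCount_div RH hT]
  unfold PP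
  apply mul_le_mul_of_nonneg_left _ (by positivity)
  apply Finset.sum_le_sum
  intro i hi
  have h0 : ∀ j ∈ FZ T, 0 ≤ wZ i * wZ j * ind 0 b ((gZ i - gZ j) * Real.log T / (2 * π)) := by
    intro j _
    apply mul_nonneg (mul_nonneg (wZ_nonneg i) (wZ_nonneg j))
    unfold ind
    split_ifs <;> norm_num
  refine le_trans ?_ (Finset.single_le_sum h0 hi)
  have e : ind 0 b ((gZ i - gZ i) * Real.log T / (2 * π)) = 1 := by
    unfold ind
    rw [if_pos]
    simp [hb]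
  rw [e]
  nlinarith [one_le_wZ i]

/-- the dichotomy for one window -/
theorem eps_form (RH : RiemannHypothesis) (M : MainP) {a b : ℝ} (ha : ∀ k : ℤ, a ≠ k / 2) (hb : ∀ k : ℤ, b ≠ k / 2)
    {ε : ℝ} (hε : 0 < ε) : ∃ c b₀ : ℝ, 0 < c ∧ 0 < b₀ ∧ b₀ < 1 / 2 ∧ ∀ᶠ T in atTop,
      (1 + c) * PC.norm T ≤ PC.pairCount T 0 b₀ ∨ |PC.pairCount T a b - H68.AH.predAH a b * PC.norm T| ≤ ε * PC.norm T := by
  by_contra hcon
  push Not at hcon
  obtain ⟨f, hf, hfl⟩ := diag_lower RH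
  have hbn : ∀ n : ℕ, (0 : ℝ) < 1 / 2 - 1 / ((n : ℝ) + 4) ∧ (1 / 2 - 1 / ((n : ℝ) + 4) : ℝ) < 1 / 2 := by
    intro n
    have h1 : (0 : ℝ) < 1 / ((n : ℝ) + 4) := by positivity
    have h2 : 1 / ((n : ℝ) + 4) ≤ 1 / 4 := by
      apply one_div_le_one_div_of_le (by norm_num)
      have : (0 : ℝ) ≤ n := Nat.cast_nonneg n
      linarith
    constructor <;> linarith
  have hex : ∀ n : ℕ, ∃ T : ℝ, (n : ℝ) ≤ T ∧ 1 < T ∧ PC.pairCount T 0 (1 / 2 - 1 / ((n : ℝ) + 4)) < (1 + 1 / ((n : ℝ) + 1)) * PC.norm T ∧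
      ε * PC.norm T < |PC.pairCount T a b - H68.AH.predAH a b * PC.norm T| := by
    intro n
    have h1 := hcon (1 / ((n : ℝ) + 1)) (1 / 2 - 1 / ((n : ℝ) + 4)) (by positivity) (hbn n).1 (hbn n).2
    obtain ⟨T, ⟨h3, h4⟩, h2⟩ := (h1.and_eventually ((eventually_ge_atTop (n : ℝ)).and (eventually_gt_atTop 1))).exists
    exact ⟨T, h2.1, h2.2, h3, h4⟩
  choose T hT1 hT2 hT3 hT4 using hex
  have htend : Tendsto T atTop atTop := tendsto_atTop_mono hT1 tendsto_natCast_atTop_atTop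
  have hHyp : H68.AH.Hyp (Filter.map T atTop) := by
    refine ⟨htend, fun b' hb0 hb1 => ?_⟩
    rw [tendsto_map'_iff]
    have h1 : Tendsto (fun n : ℕ => 1 + 1 / ((n : ℝ) + 1)) atTop (𝓝 1) := by
      have := (tendsto_one_div_add_atTop_nhds_zero_nat (𝕜 := ℝ)).const_add 1
      rwa [add_zero] at this
    apply tendsto_of_tendsto_of_tendsto_of_le_of_le' (hf.comp htend) h1
    · filter_upwards with n
      exact hfl (T n) (hT2 n) b' hb0.le
    · have h2 : Tendsto (fun n : ℕ => 1 / 2 - 1 / ((n : ℝ) + 4)) atTop (𝓝 (1 / 2)) := by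
        have h3 : Tendsto (fun n : ℕ => 1 / ((n : ℝ) + 4)) atTop (𝓝 0) := by
          simp_rw [one_div]
          exact (tendsto_atTop_add_const_right _ _ tendsto_natCast_atTop_atTop).inv_tendsto_atTop
        have := h3.const_sub (1 / 2)
        rwa [sub_zero] at this
      filter_upwards [h2.eventually (lt_mem_nhds hb1)] with n hn
      have hn0 := norm_pos (hT2 n)
      simp only [Function.comp_apply]
      rw [div_le_iff₀ hn0]
      exact (pairCount_mono RH (hT2 n) le_rfl hn.le).trans (hT3 n).le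
  have h5 := M _ hHyp a b ha hb
  rw [tendsto_map'_iff, Metric.tendsto_nhds] at h5
  obtain ⟨n, hn⟩ := (h5 ε hε).exists
  simp only [Function.comp_apply] at hn
  rw [Real.dist_eq] at hn
  have hn0 := norm_pos (hT2 n)
  have h6 := hT4 n
  have e : PC.pairCount (T n) a b - H68.AH.predAH a b * PC.norm (T n)
      = (PC.pairCount (T n) a b / PC.norm (T n) - H68.AH.predAH a b) * PC.norm (T n) := by
    field_simp
  rw [e, abs_mul, abs_of_pos hn0] at h6
  have := lt_of_mul_lt_mul_right h6 hn0.le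
  linarith

/-- finitely many windows -/
theorem eps_form_finset (RH : RiemannHypothesis) (M : MainP) (P : Finset (ℝ × ℝ))
    (hP : ∀ p ∈ P, (∀ k : ℤ, p.1 ≠ k / 2) ∧ (∀ k : ℤ, p.2 ≠ k / 2)) {ε : ℝ} (hε : 0 < ε) :
    ∃ c b₀ : ℝ, 0 < c ∧ 0 < b₀ ∧ b₀ < 1 / 2 ∧ ∀ᶠ T in atTop,
      (1 + c) * PC.norm T ≤ PC.pairCount T 0 b₀ ∨
        ∀ p ∈ P, |PC.pairCount T p.1 p.2 - H68.AH.predAH p.1 p.2 * PC.norm T| ≤ ε * PC.norm T := by
  classical
  induction P using Finset.induction_on with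
  | empty =>
    refine ⟨1, 1 / 4, by norm_num, by norm_num, by norm_num, ?_⟩
    filter_upwards with T
    right
    intro p hp
    simp at hp
  | insert q P hq ih =>
    obtain ⟨c1, b1, hc1, hb1, hb1', h1⟩ := ih (fun p hp => hP p (Finset.mem_insert_of_mem hp))
    obtain ⟨c2, b2, hc2, hb2, hb2', h2⟩ := eps_form RH M (hP q (Finset.mem_insert_self _ _)).1
      (hP q (Finset.mem_insert_self _ _)).2 hε
    refine ⟨min c1 c2, max b1 b2, lt_min hc1 hc2, lt_max_of_lt_left hb1, max_lt hb1' hb2', ?_⟩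
    filter_upwards [h1, h2, eventually_gt_atTop 1] with T hT1 hT2 hT
    have hn := norm_pos hT
    rcases hT1 with hT1 | hT1
    · left
      calc (1 + min c1 c2) * PC.norm T ≤ (1 + c1) * PC.norm T :=
            mul_le_mul_of_nonneg_right (by linarith [min_le_left c1 c2]) hn.le
        _ ≤ PC.pairCount T 0 b1 := hT1
        _ ≤ _ := pairCount_mono RH hT le_rfl (le_max_left _ _)
    · rcases hT2 with hT2 | hT2
      · left
        calc (1 + min c1 c2) * PC.norm T ≤ (1 + c2) * PC.norm T :=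
              mul_le_mul_of_nonneg_right (by linarith [min_le_right c1 c2]) hn.le
          _ ≤ PC.pairCount T 0 b2 := hT2
          _ ≤ _ := pairCount_mono RH hT le_rfl (le_max_right _ _)
      · right
        intro p hp
        rcases Finset.mem_insert.mp hp with h | h
        · rw [h]; exact hT2
        · exact hT1 p h

lemma predAH_eq (a b : ℝ) : H68.AH.predAH a b = ∑ k ∈ Finset.Icc ⌈2 * a⌉ ⌊2 * b⌋, H68.AH.mAH k := by
  unfold H68.AH.predAH
  have e : {k : ℤ | a ≤ (k : ℝ) / 2 ∧ (k : ℝ) / 2 ≤ b} = ((Finset.Icc ⌈2 * a⌉ ⌊2 * b⌋ : Finset ℤ) : Set ℤ) := by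
    ext k
    rw [Finset.mem_coe, Finset.mem_Icc, Int.ceil_le, Int.le_floor]
    simp only [Set.mem_setOf_eq]
    constructor
    · rintro ⟨h1, h2⟩; constructor <;> linarith
    · rintro ⟨h1, h2⟩; constructor <;> linarith
  rw [e, finsum_mem_coe_finset]

/-- **The dichotomy, uniform in the window.** -/
theorem dichotomy (RH : RiemannHypothesis) (M : MainP) {ε : ℝ} (hε : 0 < ε) :
    ∃ c b₀ : ℝ, 0 < c ∧ 0 < b₀ ∧ b₀ < 1 / 2 ∧ ∀ᶠ T in atTop,
      (1 + c) * PC.norm T ≤ PC.pairCount T 0 b₀ ∨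
        ∀ a b : ℝ, |a| ≤ 1 / ε → |b| ≤ 1 / ε → (∀ k : ℤ, ε ≤ |a - k / 2|) → (∀ k : ℤ, ε ≤ |b - k / 2|) →
          |PC.pairCount T a b - H68.AH.predAH a b * PC.norm T| ≤ ε * PC.norm T := by
  classical
  set δ : ℝ := min ε (1 / 8) with hδ
  have hδ0 : 0 < δ := by positivity
  have hδε : δ ≤ ε := min_le_left _ _
  have hδ8 : δ ≤ 1 / 8 := min_le_right _ _
  have lo_ne : ∀ j k : ℤ, (j : ℝ) / 2 + δ ≠ k / 2 := by
    intro j k h
    have h1 : (k : ℝ) = j + 2 * δ := by linarith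
    have h2 : (j : ℝ) < k := by linarith
    have h3 : (k : ℝ) < j + 1 := by linarith
    have h4 : j < k := by exact_mod_cast h2
    have h5 : k < j + 1 := by exact_mod_cast h3
    omega
  have hi_ne : ∀ j k : ℤ, ((j : ℝ) + 1) / 2 - δ ≠ k / 2 := by
    intro j k h
    have h1 : (k : ℝ) = j + 1 - 2 * δ := by linarith
    have h2 : (j : ℝ) < k := by linarith
    have h3 : (k : ℝ) < j + 1 := by linarith
    have h4 : j < k := by exact_mod_cast h2
    have h5 : k < j + 1 := by exact_mod_cast h3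
    omega
  set N : ℤ := ⌈2 / ε⌉ + 1 with hN
  set B := Finset.Icc (-N) N ×ˢ Finset.Icc (-N) N with hB
  set P : Finset (ℝ × ℝ) := (B.image fun q : ℤ × ℤ => (((q.1 : ℝ) + 1) / 2 - δ, (q.2 : ℝ) / 2 + δ)) ∪
    (B.image fun q : ℤ × ℤ => ((q.1 : ℝ) / 2 + δ, ((q.2 : ℝ) + 1) / 2 - δ)) with hPdef
  have hP : ∀ p ∈ P, (∀ k : ℤ, p.1 ≠ k / 2) ∧ (∀ k : ℤ, p.2 ≠ k / 2) := by
    intro p hp
    rw [hPdef, Finset.mem_union, Finset.mem_image, Finset.mem_image] at hp
    rcases hp with ⟨q, _, rfl⟩ | ⟨q, _, rfl⟩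
    · exact ⟨fun k => hi_ne q.1 k, fun k => lo_ne q.2 k⟩
    · exact ⟨fun k => lo_ne q.1 k, fun k => hi_ne q.2 k⟩
  obtain ⟨c, b₀, hc, hb0, hb1, h⟩ := eps_form_finset RH M P hP hε
  refine ⟨c, b₀, hc, hb0, hb1, ?_⟩
  filter_upwards [h, eventually_gt_atTop 1] with T hT hT1
  rcases hT with hT | hT
  · left; exact hT
  · right
    intro a b ha hb ha' hb'
    -- location of a point at distance `≥ ε` from the lattice
    have loc : ∀ x : ℝ, |x| ≤ 1 / ε → (∀ k : ℤ, ε ≤ |x - k / 2|) →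
        (⌊2 * x⌋ : ℝ) / 2 + δ ≤ x ∧ x ≤ ((⌊2 * x⌋ : ℝ) + 1) / 2 - δ ∧ ⌊2 * x⌋ ∈ Finset.Icc (-N) N := by
      intro x hx hx'
      have h1 : (⌊2 * x⌋ : ℝ) ≤ 2 * x := Int.floor_le _
      have h2 : 2 * x < ⌊2 * x⌋ + 1 := Int.lt_floor_add_one _
      have h3 := hx' ⌊2 * x⌋
      have h4 := hx' (⌊2 * x⌋ + 1)
      rw [abs_of_nonneg (by linarith)] at h3
      push_cast at h4
      rw [abs_of_nonpos (by linarith)] at h4
      refine ⟨by linarith, by linarith, ?_⟩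
      rw [Finset.mem_Icc]
      have h5 : 2 / ε ≤ ⌈2 / ε⌉ := Int.le_ceil _
      have h6 := abs_le.mp hx
      have e : 2 / ε = 2 * (1 / ε) := by ring
      have h7 : (N : ℝ) = ⌈2 / ε⌉ + 1 := by rw [hN]; push_cast; ring
      constructor
      · have : (-N : ℝ) ≤ ⌊2 * x⌋ := by rw [h7]; linarith [h6.1]
        exact_mod_cast this
      · have : (⌊2 * x⌋ : ℝ) ≤ N := by rw [h7]; linarith [h6.2]
        exact_mod_cast this
    obtain ⟨a1, a2, a3⟩ := loc a ha ha'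
    obtain ⟨b1, b2, b3⟩ := loc b hb hb'
    set i := ⌊2 * a⌋ with hi
    set j := ⌊2 * b⌋ with hj
    have hq : (i, j) ∈ B := by rw [hB, Finset.mem_product]; exact ⟨a3, b3⟩
    have p1 : (((i : ℝ) + 1) / 2 - δ, (j : ℝ) / 2 + δ) ∈ P := by
      rw [hPdef, Finset.mem_union]; left
      exact Finset.mem_image.mpr ⟨(i, j), hq, rfl⟩
    have p2 : ((i : ℝ) / 2 + δ, ((j : ℝ) + 1) / 2 - δ) ∈ P := by
      rw [hPdef, Finset.mem_union]; right
      exact Finset.mem_image.mpr ⟨(i, j), hq, rfl⟩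
    have q1 := hT _ p1
    have q2 := hT _ p2
    simp only at q1 q2
    -- ceilings and floors
    have ceil_of : ∀ x : ℝ, (i : ℝ) < 2 * x → 2 * x < i + 1 → ⌈2 * x⌉ = i + 1 := by
      intro x hx1 hx2
      rw [Int.ceil_eq_iff]
      push_cast
      constructor <;> linarith
    have floor_of : ∀ x : ℝ, (j : ℝ) ≤ 2 * x → 2 * x < j + 1 → ⌊2 * x⌋ = j := by
      intro x hx1 hx2
      rw [Int.floor_eq_iff]
      constructor <;> linarith
    have e0 : H68.AH.predAH a b = ∑ k ∈ Finset.Icc (i + 1) j, H68.AH.mAH k := by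
      rw [predAH_eq, ceil_of a (by linarith) (by linarith), floor_of b (by linarith) (by linarith)]
    have e1 : H68.AH.predAH (((i : ℝ) + 1) / 2 - δ) ((j : ℝ) / 2 + δ) = ∑ k ∈ Finset.Icc (i + 1) j, H68.AH.mAH k := by
      rw [predAH_eq, ceil_of _ (by linarith) (by linarith), floor_of _ (by linarith) (by linarith)]
    have e2 : H68.AH.predAH ((i : ℝ) / 2 + δ) (((j : ℝ) + 1) / 2 - δ) = ∑ k ∈ Finset.Icc (i + 1) j, H68.AH.mAH k := by
      rw [predAH_eq, ceil_of _ (by linarith) (by linarith), floor_of _ (by linarith) (by linarith)]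
    rw [e1] at q1
    rw [e2] at q2
    rw [e0]
    have m1 := pairCount_mono RH hT1 (a := ((i : ℝ) + 1) / 2 - δ) (a' := a) (b := (j : ℝ) / 2 + δ) (b' := b) a2 b1
    have m2 := pairCount_mono RH hT1 (a := a) (a' := (i : ℝ) / 2 + δ) (b := b) (b' := ((j : ℝ) + 1) / 2 - δ) a1 b2
    rw [abs_le] at q1 q2 ⊢
    constructor <;> linarith [q1.1, q1.2, q2.1, q2.2]

end Pool.Agent.H84.AH
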