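import Mathlib
import Pool.Agent.H84.AH.V7
import Pool.Agent.H87.AH.O2

/-!
# MP_103a5c_AH, file V8: from the core (helper68) to the dichotomy
-/

open MeasureTheory Set Filter Topology
open scoped Real Interval

namespace Pool.Agent.H84.AH

open Pool.Agent.H6 Pool.Agent

/-- the core for all filters gives the filter version of the theorem -/
theorem mainP_of_core (RH : RiemannHypothesis) (hcore : ∀ FF : Filter ℝ, H68.AH.Hyp FF → H87.AH.CoreFF FF) : MainP := by
  classical
  intro FF hF a b ha hb
  refine main_of_off RH hF (fun R ε hR hε => ?_) ha hb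
  have h := H87.AH.off_lattice RH hF (hcore FF hF) (R := R) hR hε
  refine squeeze_zero' ?_ ?_ h
  · filter_upwards [hF.le (eventually_gt_atTop 1)] with T hT
    have hn := norm_pos hT
    apply mul_nonneg (by positivity)
    apply Finset.sum_nonneg; intro i _; apply Finset.sum_nonneg; intro j _
    split_ifs <;> [exact mul_nonneg (wZ_nonneg i) (wZ_nonneg j); exact le_rfl]
  · filter_upwards [hF.le (eventually_gt_atTop 1)] with T hT
    have hn := norm_pos hT
    rw [one_div, div_eq_inv_mul (H87.AH.OffSum R ε T)]
    apply mul_le_mul_of_nonneg_left _ (by positivity)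
    unfold H87.AH.OffSum H87.AH.xij
    apply Finset.sum_le_sum; intro i _; apply Finset.sum_le_sum; intro j _
    split_ifs
    · exact le_rfl
    · exact le_rfl

end Pool.Agent.H84.AH
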