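import Mathlib
import Pool.Agent.H84.AH.V7

/-!
# MP_103a5c_AH, file V9: the dichotomy implies `N(T; 0, b) ≥ (1 + c) norm` for every `b > 1/2`
-/

open MeasureTheory Set Filter Topology
open scoped Real Interval

namespace Pool.Agent.H84.AH

open Pool.Agent.H6 Pool.Agent

/-- the diagonal and the pairs of a window of positive distances are in `[0, b]` -/
lemma diag_add_window (RH : RiemannHypothesis) : ∃ f : ℝ → ℝ, Tendsto f atTop (𝓝 1) ∧ ∀ T : ℝ, 1 < T → ∀ a b b' : ℝ,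
    0 < a → b' ≤ b → 0 ≤ b → f T + PC.pairCount T a b' / PC.norm T ≤ PC.pairCount T 0 b / PC.norm T := by
  obtain ⟨CR, I⟩ := exists_inputs RH
  refine ⟨_, I.count, fun T hT a b b' ha hbb hb => ?_⟩
  have hn := norm_pos hT
  rw [pairCount_div RH hT, pairCount_div RH hT]
  unfold PP
  rw [← mul_add, ← Finset.sum_add_distrib]
  apply mul_le_mul_of_nonneg_left _ (by positivity)
  apply Finset.sum_le_sum
  intro i hi
  have h0 : ∀ j ∈ FZ T, wZ i * wZ j * ind a b' ((gZ i - gZ j) * Real.log T / (2 * π)) + (if i = j then wZ i else 0) ≤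
      wZ i * wZ j * ind 0 b ((gZ i - gZ j) * Real.log T / (2 * π)) := by
    intro j _
    have hw : 0 ≤ wZ i * wZ j := mul_nonneg (wZ_nonneg i) (wZ_nonneg j)
    by_cases hij : i = j
    · subst hij
      rw [if_pos rfl, sub_self, zero_mul, zero_div]
      have e1 : ind a b' 0 = 0 := by unfold ind; rw [if_neg]; rintro ⟨h1, _⟩; linarith
      have e2 : ind 0 b 0 = 1 := by unfold ind; rw [if_pos]; exact ⟨le_rfl, hb⟩
      rw [e1, e2]
      nlinarith [one_le_wZ i]
    · rw [if_neg hij, add_zero]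
      apply mul_le_mul_of_nonneg_left _ hw
      unfold ind
      split_ifs with h1 h2
      · exact le_rfl
      · exact absurd ⟨ha.le.trans h1.1, h1.2.trans hbb⟩ h2
      · norm_num
      · exact le_rfl
  refine le_trans (le_of_eq ?_) (Finset.sum_le_sum h0)
  rw [Finset.sum_add_distrib, Finset.sum_ite_eq, if_pos hi, add_comm]

lemma mAH_one : 1 / 4 ≤ H68.AH.mAH 1 := by
  unfold H68.AH.mAH
  rw [if_neg (by norm_num)]
  have hπ := Real.pi_gt_three
  have e : π * ((1 : ℤ) : ℝ) / 2 = π / 2 := by push_cast; ring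
  rw [e, Real.sin_pi_div_two]
  have h1 : (1 / (π / 2)) ^ 2 ≤ 1 / 2 := by
    rw [one_div_div, div_pow, div_le_iff₀ (by positivity)]
    nlinarith
  linarith

/-- `N(T; 0, b) ≥ (1 + c) norm` for every `b > 1/2`, from the dichotomy. -/
theorem half_of_dichotomy (RH : RiemannHypothesis)
    (D : ∀ ε : ℝ, 0 < ε → ∃ c b₀ : ℝ, 0 < c ∧ 0 < b₀ ∧ b₀ < 1 / 2 ∧ ∀ᶠ T in atTop,
      (1 + c) * PC.norm T ≤ PC.pairCount T 0 b₀ ∨
        ∀ a b : ℝ, |a| ≤ 1 / ε → |b| ≤ 1 / ε → (∀ k : ℤ, ε ≤ |a - k / 2|) → (∀ k : ℤ, ε ≤ |b - k / 2|) →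
          |PC.pairCount T a b - H68.AH.predAH a b * PC.norm T| ≤ ε * PC.norm T)
    {b : ℝ} (hb : 1 / 2 < b) : ∃ c : ℝ, 0 < c ∧ ∀ᶠ T in atTop, (1 + c) * PC.norm T ≤ PC.pairCount T 0 b := by
  set b' : ℝ := min b (3 / 4) with hb'
  have hb1 : 1 / 2 < b' := lt_min hb (by norm_num)
  have hb2 : b' ≤ 3 / 4 := min_le_right _ _
  have hb3 : b' ≤ b := min_le_left _ _
  set ε : ℝ := min (b' - 1 / 2) (1 / 8) with hε
  have hε0 : 0 < ε := lt_min (by linarith) (by norm_num)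
  have hε1 : ε ≤ b' - 1 / 2 := min_le_left _ _
  have hε2 : ε ≤ 1 / 8 := min_le_right _ _
  obtain ⟨c, b₀, hc, hb00, hb01, h⟩ := D ε hε0
  obtain ⟨f, hf, hfd⟩ := diag_add_window RH
  have h8 : (8 : ℝ) ≤ 1 / ε := by rw [le_div_iff₀ hε0]; linarith
  have far : ∀ x : ℝ, ∀ k : ℤ, (k : ℝ) / 2 ≤ x - ε → x + ε ≤ ((k : ℝ) + 1) / 2 → ∀ j : ℤ, ε ≤ |x - j / 2| := by
    intro x k h1 h2 j
    rcases le_or_gt j k with hj | hj
    · have : (j : ℝ) ≤ k := by exact_mod_cast hj
      rw [abs_of_nonneg (by linarith)]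
      linarith
    · have : (k : ℝ) + 1 ≤ j := by exact_mod_cast hj
      rw [abs_of_nonpos (by linarith)]
      linarith
  have d1 : ∀ j : ℤ, ε ≤ |(1 / 4 : ℝ) - j / 2| := far (1 / 4) 0 (by push_cast; linarith) (by push_cast; linarith)
  have d2 : ∀ j : ℤ, ε ≤ |b' - j / 2| := far b' 1 (by push_cast; linarith) (by push_cast; linarith)
  have e0 : H68.AH.predAH (1 / 4) b' = H68.AH.mAH 1 := by
    rw [predAH_eq]
    have c1 : ⌈2 * (1 / 4 : ℝ)⌉ = 1 := by rw [Int.ceil_eq_iff]; norm_num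
    have c2 : ⌊2 * b'⌋ = 1 := by rw [Int.floor_eq_iff]; push_cast; constructor <;> linarith
    rw [c1, c2, Finset.Icc_self, Finset.sum_singleton]
  refine ⟨min c (1 / 16), by positivity, ?_⟩
  filter_upwards [h, hf.eventually (lt_mem_nhds (show (1:ℝ) - 1 / 16 < 1 by norm_num)), eventually_gt_atTop 1] with T hT hfT hT1
  have hn := norm_pos hT1
  rcases hT with hT | hT
  · have h1 : PC.pairCount T 0 b₀ ≤ PC.pairCount T 0 b := pairCount_mono RH hT1 le_rfl (by linarith)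
    have h2 : (1 + min c (1 / 16)) * PC.norm T ≤ (1 + c) * PC.norm T :=
      mul_le_mul_of_nonneg_right (by linarith [min_le_left c (1 / 16)]) hn.le
    linarith
  · have h1 := hT (1 / 4) b' (by rw [abs_of_pos (by norm_num)]; linarith) (by rw [abs_of_pos (by linarith)]; linarith) d1 d2
    rw [e0] at h1
    have h2 := (abs_le.mp h1).1
    have h3 := mAH_one
    have h4 : PC.norm T / 8 ≤ PC.pairCount T (1 / 4) b' := by nlinarith
    have h5 := hfd T hT1 (1 / 4) b b' (by norm_num) hb3 (by linarith)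
    have h6 : 1 / 8 ≤ PC.pairCount T (1 / 4) b' / PC.norm T := by rw [le_div_iff₀ hn]; linarith
    have h7 : 1 + 1 / 16 ≤ PC.pairCount T 0 b / PC.norm T := by linarith
    rw [le_div_iff₀ hn] at h7
    have h8 : (1 + min c (1 / 16)) * PC.norm T ≤ (1 + 1 / 16) * PC.norm T :=
      mul_le_mul_of_nonneg_right (by linarith [min_le_right c (1 / 16)]) hn.le
    linarith

end Pool.Agent.H84.AH
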